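import Mathlib

/-!
Zeros of analytic functions on an open interval; derivatives of the differences `g - q f`.
-/

namespace MP798203.NL

open Filter Topology

theorem countable_zeros {h : ℝ → ℝ} {U : Set ℝ} (hU : IsPreconnected U)
    (hh : AnalyticOnNhd ℝ h U) (hne : ¬ Set.EqOn h 0 U) : {x ∈ U | h x = 0}.Countable := by
  refine (countable_setOfPred_isolated_right_within (s := {x ∈ U | h x = 0})).mono ?_
  rintro x ⟨hxU, hx⟩
  have h1 : ¬ ∃ᶠ z in 𝓝[≠] x, h z = 0 := fun hf =>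
    hne (hh.eqOn_zero_of_preconnected_of_frequently_eq_zero hU hxU hf)
  rw [not_frequently, eventually_nhdsWithin_iff, Metric.eventually_nhds_iff] at h1
  obtain ⟨ε, hε, h2⟩ := h1
  refine ⟨⟨hxU, hx⟩, ?_⟩
  rw [← Filter.empty_mem_iff_bot, Metric.mem_nhdsWithin_iff]
  refine ⟨ε, hε, ?_⟩
  rintro y ⟨hy1, ⟨-, hy⟩, hy2⟩
  exfalso
  refine h2 (Metric.mem_ball.1 hy1) ?_ hy
  simp only [Set.mem_compl_iff, Set.mem_singleton_iff]
  intro h3
  rw [Set.mem_Ioi, h3] at hy2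
  exact lt_irrefl _ hy2

/-- `f` is not constant on `U` -/
def NC (U : Set ℝ) (f : ℝ → ℝ) : Prop := ¬ ∃ c, ∀ x ∈ U, f x = c

theorem countable_deriv_zeros {f : ℝ → ℝ} {U : Set ℝ} (hUo : IsOpen U) (hU : IsPreconnected U)
    (hf : AnalyticOnNhd ℝ f U) (hnc : NC U f) : {x ∈ U | deriv f x = 0}.Countable := by
  refine countable_zeros hU hf.deriv fun h => hnc ?_
  exact hUo.exists_is_const_of_deriv_eq_zero hU hf.differentiableOn h

theorem countable_ratio {f g : ℝ → ℝ} {U : Set ℝ} (hUo : IsOpen U) (hU : IsPreconnected U)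
    (hf : AnalyticOnNhd ℝ f U) (hg : AnalyticOnNhd ℝ g U) (q : ℝ)
    (hnc : ¬ ∃ c : ℝ, ∀ x ∈ U, g x = q * f x + c) :
    {x ∈ U | deriv g x = q * deriv f x}.Countable := by
  have h1 : AnalyticOnNhd ℝ (fun x => g x - q * f x) U := hg.sub (analyticOnNhd_const.mul hf)
  have h2 : NC U (fun x => g x - q * f x) := by
    rintro ⟨c, hc⟩
    exact hnc ⟨c, fun x hx => by have := hc x hx; linarith⟩
  refine (countable_deriv_zeros hUo hU h1 h2).mono ?_
  rintro x ⟨hx, hx2⟩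
  refine ⟨hx, ?_⟩
  have e1 : HasDerivAt (fun x => g x - q * f x) (deriv g x - q * deriv f x) x :=
    ((hg x hx).differentiableAt.hasDerivAt).sub
      (((hf x hx).differentiableAt.hasDerivAt).const_mul q)
  rw [e1.deriv, hx2, sub_self]

/-- the exceptional set -/
def Bad (U : Set ℝ) (A B : Set ((ℝ → ℝ) × ℕ)) : Set ℝ :=
  (⋃ p ∈ A, {x ∈ U | deriv p.1 x = 0}) ∪ (⋃ t ∈ B, {x ∈ U | deriv t.1 x = 0}) ∪
    ⋃ p ∈ A, ⋃ t ∈ B, ⋃ q : ℚ, {x ∈ U | (¬ ∃ c : ℝ, ∀ x ∈ U, t.1 x = q * p.1 x + c) ∧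
      deriv t.1 x = q * deriv p.1 x}

theorem bad_countable {U : Set ℝ} (hUo : IsOpen U) (hU : IsPreconnected U)
    {A B : Set ((ℝ → ℝ) × ℕ)} (hA : A.Countable) (hB : B.Countable)
    (hA0 : ∀ p ∈ A, AnalyticOnNhd ℝ p.1 U ∧ NC U p.1)
    (hB0 : ∀ t ∈ B, AnalyticOnNhd ℝ t.1 U ∧ NC U t.1) : (Bad U A B).Countable := by
  refine ((Set.Countable.biUnion hA fun p hp => ?_).union
    (Set.Countable.biUnion hB fun t ht => ?_)).union
    (Set.Countable.biUnion hA fun p hp => Set.Countable.biUnion hB fun t ht =>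
      Set.countable_iUnion fun q => ?_)
  · exact countable_deriv_zeros hUo hU (hA0 p hp).1 (hA0 p hp).2
  · exact countable_deriv_zeros hUo hU (hB0 t ht).1 (hB0 t ht).2
  · by_cases hc : ∃ c : ℝ, ∀ x ∈ U, t.1 x = q * p.1 x + c
    · have : {x ∈ U | (¬ ∃ c : ℝ, ∀ x ∈ U, t.1 x = q * p.1 x + c) ∧
          deriv t.1 x = q * deriv p.1 x} = ∅ := by
        rw [Set.eq_empty_iff_forall_notMem]
        rintro x ⟨-, h, -⟩
        exact h hc
      rw [this]
      exact Set.countable_empty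
    · refine (countable_ratio hUo hU (hA0 p hp).1 (hB0 t ht).1 (q : ℝ) hc).mono ?_
      rintro x ⟨h1, h2⟩
      exact ⟨h1, h2.2⟩

/-- a sequence which contains the exceptional set, and a point outside of it -/
theorem exists_seq {U : Set ℝ} (hUo : IsOpen U) (hUn : U.Nonempty) {Z : Set ℝ}
    (hZ : Z.Countable) : ∃ z : ℕ → ℝ, Z ⊆ Set.range z ∧ ∃ x ∈ U, ∀ i, x ≠ z i := by
  obtain ⟨z, hz⟩ := (Set.countable_iff_exists_subset_range).1 hZ
  refine ⟨z, hz, ?_⟩
  have hd := (Set.countable_range z).dense_compl ℝ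
  obtain ⟨x, hx1, hx2⟩ := hd.inter_open_nonempty U hUo hUn
  exact ⟨x, hx1, fun i hi => hx2 ⟨i, hi.symm⟩⟩

/-- an analytic function not related to countably many given ones -/
theorem exists_dummy_fun {U : Set ℝ} (hUo : IsOpen U) (hUn : U.Nonempty)
    {B : Set ((ℝ → ℝ) × ℕ)} (hB : B.Countable)
    (hB0 : ∀ t ∈ B, NC U t.1) :
    ∃ f : ℝ → ℝ, AnalyticOnNhd ℝ f U ∧ NC U f ∧
      ∀ t ∈ B, ¬ ∃ (q : ℚ) (c : ℝ), ∀ x ∈ U, t.1 x = q * f x + c := by
  obtain ⟨x0, hx0⟩ := hUn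
  have hS : (({0} : Set ℝ) ∪ ⋃ t ∈ B, ⋃ q : ℚ, {deriv t.1 x0 / q}).Countable :=
    (Set.countable_singleton _).union (Set.Countable.biUnion hB fun t _ =>
      Set.countable_iUnion fun q => Set.countable_singleton _)
  obtain ⟨l, hl⟩ := (hS.dense_compl ℝ).nonempty
  rw [Set.mem_compl_iff, Set.mem_union, not_or] at hl
  obtain ⟨hl0, hl1⟩ := hl
  have hl0' : l ≠ 0 := fun h => hl0 (by rw [h]; rfl)
  refine ⟨fun x => l * x, ?_, ?_, ?_⟩
  · exact analyticOnNhd_const.mul analyticOnNhd_id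
  · rintro ⟨c, hc⟩
    obtain ⟨ε, hε, hb⟩ := Metric.isOpen_iff.1 hUo x0 hx0
    have h1 := hc x0 hx0
    have h2 := hc (x0 + ε / 2) (hb (by
      rw [Metric.mem_ball, Real.dist_eq, add_sub_cancel_left, abs_of_pos (by positivity)]
      linarith))
    simp only at h1 h2
    have h3 : l * (ε / 2) = 0 := by linarith
    rcases mul_eq_zero.1 h3 with h4 | h4
    · exact hl0' h4
    · linarith
  · rintro t ht ⟨q, c, hq⟩
    have hq0 : q ≠ 0 := by
      rintro rfl
      apply hB0 t ht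
      refine ⟨c, fun x hx => ?_⟩
      have := hq x hx
      simpa using this
    have hd : HasDerivAt t.1 ((q : ℝ) * l) x0 := by
      have h1 : HasDerivAt (fun x : ℝ => (q : ℝ) * (l * x) + c) ((q : ℝ) * l) x0 := by
        have h2 := (((hasDerivAt_id x0).const_mul l).const_mul (q : ℝ)).add_const c
        simpa using h2
      refine h1.congr_of_eventuallyEq ?_
      filter_upwards [hUo.mem_nhds hx0] with x hx
      exact hq x hx
    apply hl1
    simp only [Set.mem_iUnion, Set.mem_singleton_iff]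
    refine ⟨t, ht, q, ?_⟩
    rw [hd.deriv]
    have : (q : ℝ) ≠ 0 := by exact_mod_cast hq0
    field_simp

end MP798203.NL
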