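import Pool.Agent.Lib.MP_798203_nt.NL.StageN
import Pool.Agent.Lib.MP_798203_nt.AB.Lim

/-!
Nested intervals: all stages.
-/

namespace MP798203.NL

open Real Finset Filter Topology MP798203.AB

theorem assembly_nl {ι : Type*} (f a : ℕ → ℝ → ℝ) (r : ℕ → ℕ) (hr : ∀ k, 2 ≤ r k)
    (d : ℕ → ℕ → ℕ) (hd : ∀ k j, d k j < r k) (T : ℕ → Finset ι) (g b : ι → ℝ → ℝ) (s : ι → ℕ)
    {U : Set ℝ} (hU : IsOpen U) (z : ℕ → ℝ) (hne : ∃ x ∈ U, ∀ i, x ≠ z i)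
    (hE : ∀ k, ∀ x ∈ U, (∀ i, x ≠ z i) → HasStrictDerivAt (f k) (a k x) x ∧ a k x ≠ 0 ∧
      ∀ t ∈ T k, HasStrictDerivAt (g t) (b t x) x ∧ 2 ≤ s t ∧
        Adm (r k) (s t) (b t x / a k x)) :
    ∃ x ∈ U, ∃ ρ C : ℕ → ℝ, (∀ k, 0 < ρ k ∧ ρ k ≤ 1) ∧ (∀ k, 0 ≤ C k) ∧
      (∀ k : ℕ, ((k : ℝ) + 1) * (2 * Real.log (1 / ρ k) + 1 + C k + C (k + 1)) ≤
        Real.log (1 / ρ (k + 1))) ∧
      ∀ k : ℕ, ∀ X : ℝ, 1 / ρ k ≤ X → X ≤ 1 / ρ (k + 1) →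
        (((Ico (cnt (r k) (1 / ρ k)) (cnt (r k) X)).filter
          (fun j => dg (r k) (f k x) j ≠ (d k j : ℤ))).card : ℝ) ≤
            1 / ((k : ℝ) + 1) * Real.log (X * ρ k) + C k ∧
        ∀ t ∈ T k, ‖∑ n ∈ Ico (cnt (s t) (1 / ρ k)) (cnt (s t) X), ee ((s t : ℝ) ^ n * g t x)‖ ≤
          1 / ((k : ℝ) + 1) * Real.log (X * ρ k) + C k := by
  classical
  -- the conclusion of a stage
  obtain ⟨Q, hQ⟩ : ∃ Q : ℕ → ℝ → ℝ → ℝ → ℝ → Prop, Q = fun k ρ C p' ρ' =>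
      ∀ x ∈ Metric.closedBall p' ρ', ∀ X : ℝ, 1 / ρ ≤ X → X ≤ 1 / ρ' →
        (((Ico (cnt (r k) (1 / ρ)) (cnt (r k) X)).filter
          (fun j => dg (r k) (f k x) j ≠ (d k j : ℤ))).card : ℝ) ≤
            1 / ((k : ℝ) + 1) * Real.log (X * ρ) + C ∧
        ∀ t ∈ T k, ‖∑ n ∈ Ico (cnt (s t) (1 / ρ)) (cnt (s t) X), ee ((s t : ℝ) ^ n * g t x)‖ ≤
          1 / ((k : ℝ) + 1) * Real.log (X * ρ) + C := ⟨_, rfl⟩
  -- a stage can be run from the interval with centre `p` and radius `ρ`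
  obtain ⟨P, hP⟩ : ∃ P : ℕ → ℝ → ℝ → ℝ → Prop, P = fun k p ρ C =>
      Metric.closedBall p ρ ⊆ U ∧ ∃ x' ∈ Metric.closedBall p ρ, (∀ i, x' ≠ z i) ∧
        ∀ ρs : ℝ, 0 < ρs → ∃ p' ρ' : ℝ, 0 < ρ' ∧ ρ' ≤ ρs ∧ ρ' ≤ 1 ∧
          Metric.closedBall p' ρ' ⊆ Metric.closedBall p ρ ∧
          Metric.closedBall p' ρ' ⊆ Metric.closedBall x' ρs ∧ Q k ρ C p' ρ' := ⟨_, rfl⟩
  have hex : ∀ k, ∀ x ∈ U, (∀ i, x ≠ z i) → ∃ C δ : ℝ, 0 ≤ C ∧ 0 < δ ∧ ∀ p ρ : ℝ, 0 < ρ → ρ ≤ 1 →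
      Metric.closedBall p ρ ⊆ Metric.closedBall x δ → P k p ρ C := by
    intro k x hx hxz
    obtain ⟨h1, h2, h3⟩ := hE k x hx hxz
    obtain ⟨C, δ, hC, hδ, h⟩ := stage_nl (hr k) (f k) h1 h2 (T k) g (fun t => b t x)
      (fun t ht => (h3 t ht).1) s (fun t ht => (h3 t ht).2) (ε := 1 / ((k : ℝ) + 1))
      (by positivity)
    obtain ⟨δ₁, hδ₁, hsub⟩ := Metric.nhds_basis_closedBall.mem_iff.1 (hU.mem_nhds hx)
    refine ⟨C, min δ δ₁, hC, lt_min hδ hδ₁, ?_⟩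
    intro p ρ hρ hρ1 hb
    have hb1 := hb.trans (Metric.closedBall_subset_closedBall (min_le_left δ δ₁))
    have hb2 := hb.trans (Metric.closedBall_subset_closedBall (min_le_right δ δ₁))
    obtain ⟨x', hx', hx'z, h4⟩ := h (d k) (hd k) z p ρ hρ hρ1 hb1
    rw [hP]
    refine ⟨hb2.trans hsub, x', hx', hx'z, ?_⟩
    intro ρs hρs
    obtain ⟨p', ρ', k1, k2, k3, k4, k5, k6⟩ := h4 ρs hρs
    refine ⟨p', ρ', k1, k2, k3, k4, k5, ?_⟩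
    rw [hQ]
    exact k6
  -- the next interval
  have hnext : ∀ (k : ℕ) (q : ℝ × ℝ × ℝ), ∃ q' : ℝ × ℝ × ℝ,
      (0 < q.2.1 ∧ q.2.1 ≤ 1 ∧ 0 ≤ q.2.2 ∧ P k q.1 q.2.1 q.2.2) →
      (0 < q'.2.1 ∧ q'.2.1 ≤ 1 ∧ 0 ≤ q'.2.2 ∧ P (k + 1) q'.1 q'.2.1 q'.2.2) ∧
      Metric.closedBall q'.1 q'.2.1 ⊆ Metric.closedBall q.1 q.2.1 ∧
      ((k : ℝ) + 1) * (2 * Real.log (1 / q.2.1) + 1 + q.2.2 + q'.2.2) ≤ Real.log (1 / q'.2.1) ∧
      Q k q.2.1 q.2.2 q'.1 q'.2.1 := by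
    rintro k ⟨p, ρ, C⟩
    by_cases hc : 0 < ρ ∧ ρ ≤ 1 ∧ 0 ≤ C ∧ P k p ρ C
    · obtain ⟨h1, h2, h3, h4⟩ := hc
      rw [hP] at h4
      obtain ⟨hpU, x', hx', hx'z, h5⟩ := h4
      obtain ⟨C', δ, hC', hδ, h6⟩ := hex (k + 1) x' (hpU hx') hx'z
      obtain ⟨p', ρ', k1, k2, k3, k4, k5, k6⟩ := h5
        (min δ (Real.exp (-(((k : ℝ) + 1) * (2 * Real.log (1 / ρ) + 1 + C + C')))))
        (lt_min hδ (Real.exp_pos _))
      refine ⟨(p', ρ', C'), fun _ => ⟨⟨k1, k3, hC', ?_⟩, k4, ?_, k6⟩⟩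
      · exact h6 p' ρ' k1 k3
          (k5.trans (Metric.closedBall_subset_closedBall (min_le_left _ _)))
      · have e1 : ρ' ≤ Real.exp (-(((k : ℝ) + 1) * (2 * Real.log (1 / ρ) + 1 + C + C'))) :=
          k2.trans (min_le_right _ _)
        have e2 := Real.log_le_log k1 e1
        rw [Real.log_exp] at e2
        have e3 : Real.log (1 / ρ') = - Real.log ρ' := by rw [one_div, Real.log_inv]
        show ((k : ℝ) + 1) * (2 * Real.log (1 / ρ) + 1 + C + C') ≤ Real.log (1 / ρ')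
        rw [e3]
        linarith
    · exact ⟨(0, 0, 0), fun h => absurd h hc⟩
  choose next hn using hnext
  -- the first interval
  obtain ⟨x0, hx0, hx0z⟩ := hne
  obtain ⟨C0, δ0, hC0, hδ0, h0⟩ := hex 0 x0 hx0 hx0z
  obtain ⟨S, hS0, hS⟩ : ∃ S : ℕ → ℝ × ℝ × ℝ, S 0 = (x0, min 1 δ0, C0) ∧
      ∀ k, S (k + 1) = next k (S k) :=
    ⟨fun k => Nat.rec (x0, min 1 δ0, C0) (fun k s => next k s) k, rfl, fun k => rfl⟩
  have hinv : ∀ k, 0 < (S k).2.1 ∧ (S k).2.1 ≤ 1 ∧ 0 ≤ (S k).2.2 ∧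
      P k (S k).1 (S k).2.1 (S k).2.2 := by
    intro k
    induction k with
    | zero =>
      rw [hS0]
      refine ⟨lt_min one_pos hδ0, min_le_left _ _, hC0, ?_⟩
      exact h0 x0 (min 1 δ0) (lt_min one_pos hδ0) (min_le_left _ _)
        (Metric.closedBall_subset_closedBall (min_le_right _ _))
    | succ k ih =>
      rw [hS]
      exact (hn k (S k) ih).1
  have hrel := fun k => hn k (S k) (hinv k)
  have hne : (⋂ k, Metric.closedBall (S k).1 (S k).2.1).Nonempty := by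
    apply IsCompact.nonempty_iInter_of_sequence_nonempty_isCompact_isClosed
    · intro k
      rw [hS k]
      exact (hrel k).2.1
    · intro k
      exact ⟨(S k).1, Metric.mem_closedBall_self (hinv k).1.le⟩
    · exact isCompact_closedBall _ _
    · intro k
      exact Metric.isClosed_closedBall
  obtain ⟨x, hx⟩ := hne
  rw [Set.mem_iInter] at hx
  have hxU : x ∈ U := by
    have h1 := (hinv 0).2.2.2
    rw [hP] at h1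
    exact h1.1 (hx 0)
  refine ⟨x, hxU, fun k => (S k).2.1, fun k => (S k).2.2, fun k => ⟨(hinv k).1, (hinv k).2.1⟩,
    fun k => (hinv k).2.2.1, ?_, ?_⟩
  · intro k
    have h1 := (hrel k).2.2.1
    rw [← hS k] at h1
    exact h1
  · intro k X hX1 hX2
    have h1 := (hrel k).2.2.2
    rw [← hS k, hQ] at h1
    exact h1 x (hx (k + 1)) X hX1 hX2

end MP798203.NL
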