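import Mathlib

/-!
The local coordinate `y = f x` near a point with `f' ≠ 0`.
-/

namespace MP798203.NL

open Filter Topology Metric

theorem approx_of_strict {f : ℝ → ℝ} {a x₀ : ℝ} (hf : HasStrictDerivAt f a x₀) {η : ℝ}
    (hη : 0 < η) : ∃ s ∈ 𝓝 x₀, ∀ x ∈ s, ∀ y ∈ s, |f x - f y - a * (x - y)| ≤ η * |x - y| := by
  obtain ⟨s, hs, h⟩ := hf.hasStrictFDerivAt.approximates_deriv_on_nhds
    (c := ⟨η, hη.le⟩) (Or.inr (by exact_mod_cast hη))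
  refine ⟨s, hs, fun x hx y hy => ?_⟩
  have h1 : ‖f x - f y - _‖ ≤ η * ‖x - y‖ := h x hx y hy
  simpa [Real.norm_eq_abs, mul_comm] using h1

theorem local_coord {ι : Type*} (f : ℝ → ℝ) {x₀ a : ℝ} (hf : HasStrictDerivAt f a x₀)
    (ha : a ≠ 0) (T : Finset ι) (g : ι → ℝ → ℝ) (b : ι → ℝ)
    (hg : ∀ t ∈ T, HasStrictDerivAt (g t) (b t) x₀) {η : ℝ} (hη : 0 < η) :
    ∃ (h : ℝ → ℝ) (δ δ' V A : ℝ), 0 < δ ∧ 0 < δ' ∧ 0 ≤ V ∧ 0 ≤ A ∧
      (∀ y ∈ closedBall (f x₀) δ', f (h y) = y) ∧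
      (∀ y ∈ closedBall (f x₀) δ', ∀ y' ∈ closedBall (f x₀) δ', |h y - h y'| ≤ V * |y - y'|) ∧
      (∀ t ∈ T, ∀ y ∈ closedBall (f x₀) δ', ∀ y' ∈ closedBall (f x₀) δ',
        |g t (h y) - g t (h y') - b t / a * (y - y')| ≤ η * |y - y'|) ∧
      (∀ x ∈ closedBall x₀ δ, h (f x) = x ∧ |f x - f x₀| ≤ δ' / 2) ∧
      (∀ x ∈ closedBall x₀ δ, ∀ x' ∈ closedBall x₀ δ, |f x - f x'| ≤ A * |x - x'|) := by
  classical
  set h : ℝ → ℝ := hf.localInverse f a x₀ ha with hh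
  have hh0 : h (f x₀) = x₀ := HasStrictFDerivAt.localInverse_apply_image _
  have hhd : HasStrictDerivAt h a⁻¹ (f x₀) := hf.to_localInverse ha
  -- neighborhoods of `f x₀`
  obtain ⟨s1, hs1, h1⟩ := approx_of_strict hhd one_pos
  have h2 : ∀ᶠ y in 𝓝 (f x₀), f (h y) = y := hf.eventually_right_inverse ha
  have h3 : ∀ t ∈ T, ∃ s ∈ 𝓝 (f x₀), ∀ y ∈ s, ∀ y' ∈ s,
      |g t (h y) - g t (h y') - b t / a * (y - y')| ≤ η * |y - y'| := by
    intro t ht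
    have h4 : HasStrictDerivAt (g t ∘ h) (b t * a⁻¹) (f x₀) := by
      refine HasStrictDerivAt.comp (f x₀) ?_ hhd
      rw [hh0]
      exact hg t ht
    obtain ⟨s, hs, h5⟩ := approx_of_strict h4 hη
    refine ⟨s, hs, fun y hy y' hy' => ?_⟩
    have h6 := h5 y hy y' hy'
    rwa [← div_eq_mul_inv] at h6
  choose! s3 hs3 h3 using h3
  have hI : ((⋂ t ∈ T, s3 t) ∩ (s1 ∩ {y | f (h y) = y})) ∈ 𝓝 (f x₀) :=
    inter_mem ((biInter_finset_mem T).2 hs3) (inter_mem hs1 h2)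
  obtain ⟨δ', hδ', hsub⟩ := Metric.nhds_basis_closedBall.mem_iff.1 hI
  -- neighborhoods of `x₀`
  obtain ⟨s5, hs5, h5⟩ := approx_of_strict hf one_pos
  have h6 : ∀ᶠ x in 𝓝 x₀, h (f x) = x := hf.eventually_left_inverse ha
  have h7 : ∀ᶠ x in 𝓝 x₀, f x ∈ closedBall (f x₀) (δ' / 2) :=
    hf.hasDerivAt.continuousAt.eventually (closedBall_mem_nhds _ (by positivity))
  have hJ : (s5 ∩ ({x | h (f x) = x} ∩ {x | f x ∈ closedBall (f x₀) (δ' / 2)})) ∈ 𝓝 x₀ :=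
    inter_mem hs5 (inter_mem h6 h7)
  obtain ⟨δ, hδ, hsub'⟩ := Metric.nhds_basis_closedBall.mem_iff.1 hJ
  refine ⟨h, δ, δ', |a⁻¹| + 1, |a| + 1, hδ, hδ', by positivity, by positivity, ?_, ?_, ?_, ?_, ?_⟩
  · intro y hy
    exact (hsub hy).2.2
  · intro y hy y' hy'
    have h8 := h1 y (hsub hy).2.1 y' (hsub hy').2.1
    have h9 : |h y - h y'| ≤ |h y - h y' - a⁻¹ * (y - y')| + |a⁻¹ * (y - y')| := by
      have := abs_add_le (h y - h y' - a⁻¹ * (y - y')) (a⁻¹ * (y - y'))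
      simpa using this
    rw [abs_mul] at h9
    linarith
  · intro t ht y hy y' hy'
    have e : ∀ y ∈ closedBall (f x₀) δ', y ∈ s3 t := fun y hy =>
      Set.mem_iInter₂.1 (hsub hy).1 t ht
    exact h3 t ht y (e y hy) y' (e y' hy')
  · intro x hx
    have h8 := hsub' hx
    refine ⟨h8.2.1, ?_⟩
    have h9 := h8.2.2
    rwa [Set.mem_ofPred_eq, mem_closedBall, Real.dist_eq] at h9
  · intro x hx x' hx'
    have h8 := h5 x (hsub' hx).1 x' (hsub' hx').1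
    have h9 : |f x - f x'| ≤ |f x - f x' - a * (x - x')| + |a * (x - x')| := by
      have := abs_add_le (f x - f x' - a * (x - x')) (a * (x - x'))
      simpa using this
    rw [abs_mul] at h9
    linarith

end MP798203.NL
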