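import Pool.Agent.Lib.MP_798203_nt.NL.AsmN
import Pool.Agent.Lib.MP_798203_nt.NL.Anl
import Pool.Agent.Lib.MP_798203_nt.AB.Main

/-!
The construction for analytic functions: stages `k` with the function `(σ k).1` and the base `(σ k).2`.
-/

namespace MP798203.NL

open Real Finset Filter Topology MP798203.AB

/-- slopes outside of the exceptional set are admissible -/
theorem adm_of_not_bad {U : Set ℝ} {A B : Set ((ℝ → ℝ) × ℕ)} {p t : (ℝ → ℝ) × ℕ}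
    (hp : p ∈ A) (ht : t ∈ B)
    (hAB : (∃ (q : ℚ) (c : ℝ), ∀ x ∈ U, t.1 x = q * p.1 x + c) → ¬ MulDep p.2 t.2)
    {x : ℝ} (hx : x ∈ U) (hxZ : x ∉ Bad U A B) {h : ℕ} (hh : 1 ≤ h) :
    Adm p.2 t.2 ((h : ℝ) * deriv t.1 x / deriv p.1 x) := by
  unfold Bad at hxZ
  simp only [Set.mem_union, Set.mem_iUnion, not_or, not_exists] at hxZ
  obtain ⟨⟨h1, h2⟩, h3⟩ := hxZ
  have hp0 : deriv p.1 x ≠ 0 := fun h0 => h1 p hp ⟨hx, h0⟩
  have ht0 : deriv t.1 x ≠ 0 := fun h0 => h2 t ht ⟨hx, h0⟩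
  have hh0 : (h : ℝ) ≠ 0 := by
    have : h ≠ 0 := by omega
    exact_mod_cast this
  refine ⟨div_ne_zero (mul_ne_zero hh0 ht0) hp0, ?_⟩
  by_cases hdep : MulDep p.2 t.2
  · left
    rintro ⟨q, hq⟩
    have hq' : deriv t.1 x = ((q / h : ℚ) : ℝ) * deriv p.1 x := by
      push_cast
      rw [hq]
      field_simp
    refine h3 p hp t ht (q / h) ⟨hx, ?_, hq'⟩
    intro c hc
    exact hAB ⟨q / h, c, hc⟩ hdep
  · exact Or.inr hdep

theorem core {U : Set ℝ} (hUo : IsOpen U) (hU : IsPreconnected U) (hUn : U.Nonempty)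
    {A B : Set ((ℝ → ℝ) × ℕ)} (hA : A.Countable) (hB : B.Countable)
    (hA0 : ∀ p ∈ A, AnalyticOnNhd ℝ p.1 U ∧ NC U p.1 ∧ 2 ≤ p.2)
    (hB0 : ∀ t ∈ B, AnalyticOnNhd ℝ t.1 U ∧ NC U t.1 ∧ 2 ≤ t.2)
    (hAB : ∀ p ∈ A, ∀ t ∈ B, (∃ (q : ℚ) (c : ℝ), ∀ x ∈ U, t.1 x = q * p.1 x + c) →
      ¬ MulDep p.2 t.2)
    (σ : ℕ → (ℝ → ℝ) × ℕ) (hσ : ∀ k, σ k ∈ A) (d : ℕ → ℕ → ℕ) (hd : ∀ k j, d k j < (σ k).2) :
    ∃ x ∈ U, (∀ t ∈ B, NormalTo t.2 (t.1 x)) ∧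
      ∃ ρ C : ℕ → ℝ, (∀ k, 0 < ρ k ∧ ρ k ≤ 1) ∧ (∀ k, 0 ≤ C k) ∧
      (∀ k : ℕ, ((k : ℝ) + 1) * (2 * Real.log (1 / ρ k) + 1 + C k + C (k + 1)) ≤
        Real.log (1 / ρ (k + 1))) ∧
      ∀ k : ℕ, ∀ X : ℝ, 1 / ρ k ≤ X → X ≤ 1 / ρ (k + 1) →
        (((Ico (cnt (σ k).2 (1 / ρ k)) (cnt (σ k).2 X)).filter
          (fun j => dg (σ k).2 ((σ k).1 x) j ≠ (d k j : ℤ))).card : ℝ) ≤
            1 / ((k : ℝ) + 1) * Real.log (X * ρ k) + C k := by
  classical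
  obtain ⟨z, hz, hne⟩ := exists_seq hUo hUn (bad_countable hUo hU hA hB
    (fun p hp => ⟨(hA0 p hp).1, (hA0 p hp).2.1⟩) (fun t ht => ⟨(hB0 t ht).1, (hB0 t ht).2.1⟩))
  obtain ⟨gB, hgB⟩ : ∃ gB : ℕ → (ℝ → ℝ) × ℕ, B ⊆ Set.range gB :=
    (Set.countable_iff_exists_subset_range).1 hB
  obtain ⟨x, hxU, ρ, C, hρ, hC, hgrow, hst⟩ := assembly_nl (ι := ℕ × ℕ)
    (fun k => (σ k).1) (fun k => deriv (σ k).1) (fun k => (σ k).2)
    (fun k => (hA0 _ (hσ k)).2.2) d hd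
    (fun k => ((range k) ×ˢ (Icc 1 k)).filter (fun i => gB i.1 ∈ B))
    (fun i x => (i.2 : ℝ) * (gB i.1).1 x) (fun i x => (i.2 : ℝ) * deriv (gB i.1).1 x)
    (fun i => (gB i.1).2) hUo z hne (by
      intro k x hx hxz
      have hxZ : x ∉ Bad U A B := fun h => by
        obtain ⟨i, hi⟩ := hz h
        exact hxz i hi.symm
      have hp := hA0 _ (hσ k)
      refine ⟨(hp.1 x hx).hasStrictDerivAt, ?_, ?_⟩
      · intro h0
        apply hxZ
        unfold Bad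
        left
        left
        simp only [Set.mem_iUnion]
        exact ⟨σ k, hσ k, hx, h0⟩
      · intro i hi
        rw [mem_filter, mem_product, mem_Icc] at hi
        have ht := hB0 _ hi.2
        refine ⟨((ht.1 x hx).hasStrictDerivAt).const_mul _, ht.2.2, ?_⟩
        exact adm_of_not_bad (hσ k) hi.2 (hAB _ (hσ k) _ hi.2) hx hxZ hi.1.2.1)
  refine ⟨x, hxU, fun t ht => ?_, ρ, C, hρ, hC, hgrow, fun k X hX1 hX2 => (hst k X hX1 hX2).1⟩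
  rw [normalTo_iff_weyl (hB0 t ht).2.2]
  intro h hh
  obtain ⟨j, hj⟩ := hgB ht
  have h1 := lim_of_stages (hB0 t ht).2.2 (fun n => ee ((t.2 : ℝ) ^ n * ((h : ℝ) * t.1 x)))
    (fun n => (norm_ee _).le) ρ C hρ hC hgrow (h + j + 1) (by
      intro k hk X hX1 hX2
      have h2 := (hst k X hX1 hX2).2 (j, h) (by
        rw [mem_filter, mem_product, mem_Icc, mem_range]
        refine ⟨⟨by omega, hh, by omega⟩, ?_⟩
        simp only
        rw [hj]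
        exact ht)
      simp only [hj] at h2
      exact h2)
  refine h1.congr (fun N => ?_)
  congr 2
  apply Finset.sum_congr rfl
  intro l _
  congr 1
  ring

/-- the digits at the end of the stage `k` -/
theorem digits_end {r : ℕ} (hr : 2 ≤ r) (y : ℝ) (d : ℕ → ℕ) (ρ C : ℕ → ℝ)
    (hρ : ∀ k, 0 < ρ k ∧ ρ k ≤ 1) (hC : ∀ k, 0 ≤ C k)
    (hgrow : ∀ k : ℕ, ((k : ℝ) + 1) * (2 * Real.log (1 / ρ k) + 1 + C k + C (k + 1)) ≤
      Real.log (1 / ρ (k + 1))) (k : ℕ)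
    (h : ∀ X : ℝ, 1 / ρ k ≤ X → X ≤ 1 / ρ (k + 1) →
        (((Ico (cnt r (1 / ρ k)) (cnt r X)).filter (fun j => dg r y j ≠ (d j : ℤ))).card : ℝ) ≤
            1 / ((k : ℝ) + 1) * Real.log (X * ρ k) + C k) :
    ∃ M : ℕ, (k : ℝ) + 1 ≤ M * Real.log r ∧
      (((range M).filter (fun j => dg r y j ≠ (d j : ℤ))).card : ℝ) ≤
        2 * Real.log r / ((k : ℝ) + 1) * M := by
  classical
  have h1ρ : ∀ k, 1 ≤ 1 / ρ k := fun k => by
    rw [le_div_iff₀ (hρ k).1]; linarith [(hρ k).2]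
  have hΛ0 : ∀ k, 0 ≤ Real.log (1 / ρ k) := fun k => Real.log_nonneg (h1ρ k)
  have hk0 : (0 : ℝ) ≤ (k : ℝ) := Nat.cast_nonneg k
  have hg := hgrow k
  have hΛ := hΛ0 k
  have hC0 := hC k
  have hC1 := hC (k + 1)
  have hΛk : (k : ℝ) + 1 ≤ Real.log (1 / ρ (k + 1)) := by nlinarith
  have hΛl : 2 * Real.log (1 / ρ k) + 1 + C k + C (k + 1) ≤ Real.log (1 / ρ (k + 1)) := by
    nlinarith
  have hmono : 1 / ρ k ≤ 1 / ρ (k + 1) := by
    have h2 : Real.log (1 / ρ k) ≤ Real.log (1 / ρ (k + 1)) := by linarith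
    exact (Real.log_le_log_iff (by linarith [h1ρ k]) (by linarith [h1ρ (k + 1)])).1 h2
  have hr1 : (1 : ℝ) < r := by exact_mod_cast (by omega : 1 < r)
  refine ⟨cnt r (1 / ρ (k + 1)), ?_, ?_⟩
  · refine hΛk.trans ?_
    rw [← Real.log_pow]
    apply Real.log_le_log (by linarith [h1ρ (k + 1)])
    by_contra hc
    rw [not_le] at hc
    exact lt_irrefl _ ((lt_cnt_iff hr _ _).2 hc)
  · have hM : Real.log (1 / ρ (k + 1)) ≤ (cnt r (1 / ρ (k + 1)) : ℝ) * Real.log r := by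
      rw [← Real.log_pow]
      apply Real.log_le_log (by linarith [h1ρ (k + 1)])
      by_contra hc
      rw [not_le] at hc
      exact lt_irrefl _ ((lt_cnt_iff hr _ _).2 hc)
    have h2 := h (1 / ρ (k + 1)) hmono le_rfl
    have h3 : Real.log (1 / ρ (k + 1) * ρ k) ≤ Real.log (1 / ρ (k + 1)) := by
      apply Real.log_le_log (mul_pos (by linarith [h1ρ (k + 1)]) (hρ k).1)
      exact mul_le_of_le_one_right (by linarith [h1ρ (k + 1)]) (hρ k).2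
    have h4 : (range (cnt r (1 / ρ (k + 1)))).filter (fun j => dg r y j ≠ (d j : ℤ)) ⊆
        range (cnt r (1 / ρ k)) ∪ (Ico (cnt r (1 / ρ k)) (cnt r (1 / ρ (k + 1)))).filter
          (fun j => dg r y j ≠ (d j : ℤ)) := by
      intro j hj
      rw [mem_filter, mem_range] at hj
      rw [mem_union, mem_range, mem_filter, mem_Ico]
      rcases Nat.lt_or_ge j (cnt r (1 / ρ k)) with hjJ | hjJ
      · exact Or.inl hjJ
      · exact Or.inr ⟨⟨hjJ, hj.1⟩, hj.2⟩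
    have h5 := (Finset.card_le_card h4).trans (Finset.card_union_le _ _)
    rw [card_range] at h5
    have h6 : (((range (cnt r (1 / ρ (k + 1)))).filter
        (fun j => dg r y j ≠ (d j : ℤ))).card : ℝ) ≤ (cnt r (1 / ρ k) : ℝ) +
        (((Ico (cnt r (1 / ρ k)) (cnt r (1 / ρ (k + 1)))).filter
          (fun j => dg r y j ≠ (d j : ℤ))).card : ℝ) := by exact_mod_cast h5
    have h7 := cnt_le hr (h1ρ k)
    have hkp : (0 : ℝ) < (k : ℝ) + 1 := by linarith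
    have h8 : 1 / ((k : ℝ) + 1) * Real.log (1 / ρ (k + 1) * ρ k) ≤
        1 / ((k : ℝ) + 1) * Real.log (1 / ρ (k + 1)) :=
      mul_le_mul_of_nonneg_left h3 (by positivity)
    have h9 : 2 * Real.log (1 / ρ k) + 1 + C k ≤ 1 / ((k : ℝ) + 1) * Real.log (1 / ρ (k + 1)) := by
      rw [show 1 / ((k : ℝ) + 1) * Real.log (1 / ρ (k + 1)) =
        Real.log (1 / ρ (k + 1)) / ((k : ℝ) + 1) by ring, le_div_iff₀ hkp]
      nlinarith
    have h10 : 2 * (1 / ((k : ℝ) + 1) * Real.log (1 / ρ (k + 1))) ≤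
        2 * Real.log r / ((k : ℝ) + 1) * (cnt r (1 / ρ (k + 1)) : ℝ) := by
      calc 2 * (1 / ((k : ℝ) + 1) * Real.log (1 / ρ (k + 1))) ≤
            2 * (1 / ((k : ℝ) + 1) * ((cnt r (1 / ρ (k + 1)) : ℝ) * Real.log r)) := by gcongr
        _ = _ := by ring
    linarith

end MP798203.NL
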