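import Pool.Agent.Lib.MP_798203_nt.NL.StepN

/-!
Infinitely many blocks: a nested sequence of cylinders whose common point avoids a given sequence.
-/

namespace MP798203.NL

open Real Finset MP798203.AB

/-- from blocks to all scales -/
theorem blocks_to_X {r s H : ℕ} (hr : 2 ≤ r) (hs : 2 ≤ s) (J B : ℕ) (f : ℕ → ℂ)
    (hf : ∀ n, ‖f n‖ ≤ 1) {ε : ℝ} (hε : 0 ≤ ε)
    (h : ∀ b < B, ‖∑ n ∈ Ico (cnt s ((r : ℝ) ^ (J + b * H))) (cnt s ((r : ℝ) ^ (J + (b + 1) * H))),
      f n‖ ≤ ε * H) {X : ℝ} (hX1 : (r : ℝ) ^ J ≤ X) (hX2 : X ≤ (r : ℝ) ^ (J + B * H)) :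
    ‖∑ n ∈ Ico (cnt s ((r : ℝ) ^ J)) (cnt s X), f n‖ ≤
      2 * ε * Real.log (X / (r : ℝ) ^ J) + (2 * (H * Real.log r) + 1) := by
  classical
  have hl2 : 1 / 2 ≤ Real.log 2 := by
    have := Real.log_two_gt_d9
    linarith
  have hr1 : (1 : ℝ) < r := by exact_mod_cast (by omega : 1 < r)
  have hr0 : (0 : ℝ) < r := by linarith
  have hlr : Real.log 2 ≤ Real.log r := Real.log_le_log (by norm_num) (by exact_mod_cast hr)
  -- the sum of the complete blocks
  have hblk : ∀ b, b ≤ B →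
      ‖∑ n ∈ Ico (cnt s ((r : ℝ) ^ J)) (cnt s ((r : ℝ) ^ (J + b * H))), f n‖ ≤ ε * (b * H : ℕ) := by
    intro b
    induction b with
    | zero =>
      intro _
      simp
    | succ b ih =>
      intro hb
      have h1 := ih (by omega)
      have h2 := h b (by omega)
      rw [← Finset.sum_Ico_consecutive f
        (cnt_mono hs (pow_le_pow_right₀ hr1.le (Nat.le_add_right J (b * H))))
        (cnt_mono hs (pow_le_pow_right₀ hr1.le
          (Nat.add_le_add_left (Nat.mul_le_mul_right H (Nat.le_succ b)) J)))]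
      refine (norm_add_le _ _).trans ?_
      push_cast at h1 ⊢
      have e : ε * (((b : ℝ) + 1) * H) = ε * (b * H) + ε * H := by ring
      rw [e]
      exact add_le_add h1 h2
  set P : ℕ → Prop := fun b => (r : ℝ) ^ (J + b * H) ≤ X with hP
  have hP0 : P 0 := by rw [hP]; simpa using hX1
  set b := Nat.findGreatest P B with hb
  have hbP : (r : ℝ) ^ (J + b * H) ≤ X := Nat.findGreatest_spec (Nat.zero_le B) hP0
  have hbB : b ≤ B := Nat.findGreatest_le B
  have hpow : (0 : ℝ) < (r : ℝ) ^ (J + b * H) := pow_pos hr0 _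
  have hX0 : 0 < X := lt_of_lt_of_le hpow hbP
  have hXle : X ≤ (r : ℝ) ^ (J + b * H) * (r : ℝ) ^ H := by
    rcases hbB.lt_or_eq with hlt | heq
    · have h1 : ¬ P (b + 1) := Nat.findGreatest_is_greatest (Nat.lt_succ_self b) hlt
      rw [hP] at h1
      simp only [not_le] at h1
      refine h1.le.trans (le_of_eq ?_)
      rw [← pow_add]
      congr 1
      ring
    · rw [heq]
      refine hX2.trans ?_
      exact le_mul_of_one_le_right (pow_nonneg hr0.le _) (one_le_pow₀ hr1.le)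
  have hlog : Real.log (X / (r : ℝ) ^ (J + b * H)) ≤ H * Real.log r := by
    rw [← Real.log_pow]
    apply Real.log_le_log (by positivity)
    rw [div_le_iff₀ hpow, mul_comm]
    exact hXle
  have hlog2 : ((b * H : ℕ) : ℝ) * Real.log r ≤ Real.log (X / (r : ℝ) ^ J) := by
    rw [← Real.log_pow]
    apply Real.log_le_log (by positivity)
    rw [le_div_iff₀ (by positivity), ← pow_add, add_comm (b * H) J]
    exact hbP
  rw [← Finset.sum_Ico_consecutive f (cnt_mono hs (pow_le_pow_right₀ hr1.le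
    (Nat.le_add_right J (b * H)))) (cnt_mono hs hbP)]
  refine (norm_add_le _ _).trans ?_
  have h1 := hblk b hbB
  have h2 := norm_sum_cnt_le hs hpow hbP f hf
  have h3 : ε * ((b * H : ℕ) : ℝ) ≤ 2 * ε * Real.log (X / (r : ℝ) ^ J) := by
    have h4 : 1 / 2 * ((b * H : ℕ) : ℝ) ≤ ((b * H : ℕ) : ℝ) * Real.log r := by
      rw [mul_comm]
      exact mul_le_mul_of_nonneg_left (hl2.trans hlr) (Nat.cast_nonneg _)
    have h5 : ((b * H : ℕ) : ℝ) ≤ 2 * Real.log (X / (r : ℝ) ^ J) := by linarith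
    calc ε * ((b * H : ℕ) : ℝ) ≤ ε * (2 * Real.log (X / (r : ℝ) ^ J)) :=
          mul_le_mul_of_nonneg_left h5 hε
      _ = 2 * ε * Real.log (X / (r : ℝ) ^ J) := by ring
  linarith

theorem iter_seq {ι : Type*} {r : ℕ} (hr : 2 ≤ r) (T : Finset ι) (β : ι → ℝ)
    (s : ι → ℕ) (hT : ∀ t ∈ T, 2 ≤ s t ∧ Adm r (s t) (β t)) {ε : ℝ} (hε : 0 < ε) :
    ∃ (H : ℕ) (η : ℝ), 0 < H ∧ 0 < η ∧ ∀ (J : ℕ) (m0 : ℤ) (d : ℕ → ℕ), (∀ j, d j < r) →
      ∀ G : ι → ℝ → ℝ, (∀ t ∈ T, ∀ y ∈ cyl r J m0, ∀ y' ∈ cyl r J m0,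
        |G t y - G t y' - β t * (y - y')| ≤ η * |y - y'|) → ∀ z : ℕ → ℝ,
      ∃ m : ℕ → ℤ, m 0 = m0 ∧ ∀ B : ℕ,
        m B * (r : ℤ) ^ H ≤ m (B + 1) ∧ m (B + 1) < (m B + 1) * (r : ℤ) ^ H ∧
        (((range H).filter (fun i => di r (J + B * H + H) (m (B + 1)) (J + B * H + i) ≠
          (d (J + B * H + i) : ℤ))).card : ℝ) ≤ ε * H ∧
        z B ∉ cyl r (J + B * H + H) (m (B + 1)) ∧
        ∀ t ∈ T, ∀ y ∈ cyl r (J + B * H + H) (m (B + 1)),
          ‖∑ n ∈ Ico (cnt (s t) ((r : ℝ) ^ (J + B * H))) (cnt (s t) ((r : ℝ) ^ (J + B * H + H))),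
            ee ((s t : ℝ) ^ n * G t y)‖ ≤ ε * H := by
  classical
  have hq : 2 ≤ ⌈4 / ε⌉₊ + 2 := by omega
  obtain ⟨H, η, hH0, hH, hη, hstep⟩ := step_nl hq hr T β s hT hε (⌈4 / ε⌉₊)
  refine ⟨H, η, hH, hη, ?_⟩
  intro J m0 d hd G hG z
  have hHr : 4 ≤ ε * H := by
    have h1 : 4 / ε ≤ H := (Nat.le_ceil _).trans (by exact_mod_cast hH0)
    rw [div_le_iff₀ hε] at h1
    linarith
  have hHp : (0 : ℝ) < H := by exact_mod_cast hH
  -- one step
  have hnext : ∀ (B : ℕ) (m : ℤ), ∃ m' : ℤ, cyl r (J + B * H) m ⊆ cyl r J m0 →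
      (m * (r : ℤ) ^ H ≤ m' ∧ m' < (m + 1) * (r : ℤ) ^ H ∧
        (((range H).filter (fun i => di r (J + B * H + H) m' (J + B * H + i) ≠
          (d (J + B * H + i) : ℤ))).card : ℝ) ≤ ε * H ∧
        z B ∉ cyl r (J + B * H + H) m' ∧
        ∀ t ∈ T, ∀ y ∈ cyl r (J + B * H + H) m',
          ‖∑ n ∈ Ico (cnt (s t) ((r : ℝ) ^ (J + B * H))) (cnt (s t) ((r : ℝ) ^ (J + B * H + H))),
            ee ((s t : ℝ) ^ n * G t y)‖ ≤ ε * H) := by
    intro B m
    by_cases hc : cyl r (J + B * H) m ⊆ cyl r J m0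
    · obtain ⟨m', h1, h2, h3, h4, h5⟩ := hstep (J + B * H) m d hd G
        (fun t ht y hy y' hy' => hG t ht y (hc hy) y' (hc hy')) (z B)
      refine ⟨m', fun _ => ⟨h1, h2, h3.trans ?_, h4, h5⟩⟩
      have hq' : 2 * (H : ℝ) / ((⌈4 / ε⌉₊ + 2 : ℕ) : ℝ) ≤ ε / 2 * H := by
        rw [div_le_iff₀ (by positivity)]
        have h6 : 4 / ε ≤ (⌈4 / ε⌉₊ : ℝ) := Nat.le_ceil _
        rw [div_le_iff₀ hε] at h6
        push_cast
        nlinarith
      linarith
    · exact ⟨0, fun h => absurd h hc⟩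
  choose next hn using hnext
  obtain ⟨m, hm0, hmS⟩ : ∃ m : ℕ → ℤ, m 0 = m0 ∧ ∀ B, m (B + 1) = next B (m B) :=
    ⟨fun B => Nat.rec m0 (fun B m => next B m) B, rfl, fun B => rfl⟩
  have hsub : ∀ B, cyl r (J + B * H) (m B) ⊆ cyl r J m0 := by
    intro B
    induction B with
    | zero =>
      rw [hm0, zero_mul, add_zero]
    | succ B ih =>
      obtain ⟨h1, h2, -⟩ := hn B (m B) ih
      rw [← hmS] at h1 h2
      have h3 := cyl_subset (J := J + B * H) hr h1 h2
      have e : J + (B + 1) * H = J + B * H + H := by ring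
      rw [e]
      exact h3.trans ih
  refine ⟨m, hm0, fun B => ?_⟩
  have h := hn B (m B) (hsub B)
  rw [← hmS] at h
  exact h

theorem iter_nl {ι : Type*} {r : ℕ} (hr : 2 ≤ r) (T : Finset ι) (β : ι → ℝ)
    (s : ι → ℕ) (hT : ∀ t ∈ T, 2 ≤ s t ∧ Adm r (s t) (β t)) {ε : ℝ} (hε : 0 < ε) :
    ∃ (H : ℕ) (C η : ℝ), 0 < H ∧ 0 ≤ C ∧ 0 < η ∧ ∀ (J : ℕ) (m0 : ℤ) (d : ℕ → ℕ), (∀ j, d j < r) →
      ∀ G : ι → ℝ → ℝ, (∀ t ∈ T, ∀ y ∈ cyl r J m0, ∀ y' ∈ cyl r J m0,
        |G t y - G t y' - β t * (y - y')| ≤ η * |y - y'|) → ∀ z : ℕ → ℝ,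
      ∃ (m : ℕ → ℤ) (y₀ : ℝ), (∀ i, y₀ ≠ z i) ∧ ∀ B : ℕ,
        y₀ ∈ cyl r (J + B * H) (m B) ∧ cyl r (J + B * H) (m B) ⊆ cyl r J m0 ∧
        (∀ y : ℝ, (m B : ℝ) / (r : ℝ) ^ (J + B * H) ≤ y →
          y < ((m B : ℝ) + 1) / (r : ℝ) ^ (J + B * H) →
          ∀ X : ℝ, (r : ℝ) ^ J ≤ X → X ≤ (r : ℝ) ^ (J + B * H) →
          (((Ico (cnt r ((r : ℝ) ^ J)) (cnt r X)).filter (fun j => dg r y j ≠ (d j : ℤ))).card : ℝ)
            ≤ ε * Real.log (X / (r : ℝ) ^ J) + C) ∧
        ∀ t ∈ T, ∀ y ∈ cyl r (J + B * H) (m B),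
          ∀ X : ℝ, (r : ℝ) ^ J ≤ X → X ≤ (r : ℝ) ^ (J + B * H) →
          ‖∑ n ∈ Ico (cnt (s t) ((r : ℝ) ^ J)) (cnt (s t) X), ee ((s t : ℝ) ^ n * G t y)‖ ≤
            ε * Real.log (X / (r : ℝ) ^ J) + C := by
  classical
  obtain ⟨H, η, hH, hη, hseq⟩ := iter_seq hr T β s hT (half_pos hε)
  have hr1 : (1 : ℝ) < r := by exact_mod_cast (by omega : 1 < r)
  have hr0 : (0 : ℝ) < r := by linarith
  have hlr : 0 < Real.log r := Real.log_pos hr1
  refine ⟨H, 2 * (H * Real.log r) + 1, η, hH, by positivity, hη, ?_⟩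
  intro J m0 d hd G hG z
  obtain ⟨m, hm0, hm⟩ := hseq J m0 d hd G hG z
  have hnest : ∀ B, cyl r (J + (B + 1) * H) (m (B + 1)) ⊆ cyl r (J + B * H) (m B) := by
    intro B
    have h := cyl_subset (J := J + B * H) hr (hm B).1 (hm B).2.1
    have e : J + (B + 1) * H = J + B * H + H := by ring
    rw [e]
    exact h
  have hnest2 : ∀ B b, b ≤ B → cyl r (J + B * H) (m B) ⊆ cyl r (J + b * H) (m b) := by
    intro B
    induction B with
    | zero =>
      intro b hb
      have : b = 0 := by omega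
      rw [this]
    | succ B ih =>
      intro b hb
      rcases Nat.lt_or_ge B b with h | h
      · have : b = B + 1 := by omega
        rw [this]
      · exact (hnest B).trans (ih b h)
  have hne : (⋂ B, cyl r (J + B * H) (m B)).Nonempty := by
    apply IsCompact.nonempty_iInter_of_sequence_nonempty_isCompact_isClosed
    · exact hnest
    · intro B
      refine ⟨(m B : ℝ) / (r : ℝ) ^ (J + B * H), ?_⟩
      unfold cyl
      rw [Set.mem_Icc]
      refine ⟨le_rfl, ?_⟩
      exact div_le_div_of_nonneg_right (by linarith) (by positivity)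
    · exact isCompact_Icc
    · intro B
      exact isClosed_Icc
  obtain ⟨y₀, hy₀⟩ := hne
  rw [Set.mem_iInter] at hy₀
  refine ⟨m, y₀, ?_, ?_⟩
  · intro i hi
    have h := (hm i).2.2.2.1
    apply h
    rw [← hi]
    have e : J + (i + 1) * H = J + i * H + H := by ring
    rw [← e]
    exact hy₀ (i + 1)
  · intro B
    refine ⟨hy₀ B, ?_, ?_, ?_⟩
    · have h := hnest2 B 0 (Nat.zero_le _)
      rw [hm0, zero_mul, add_zero] at h
      exact h
    · intro y hy1 hy2 X hX1 hX2
      have hyc : y ∈ cyl r (J + B * H) (m B) := ⟨hy1, hy2.le⟩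
      have hmain := blocks_to_X hr hr J B (fun j => if dg r y j ≠ (d j : ℤ) then (1 : ℂ) else 0)
        (fun j => by
          split_ifs <;> simp) (half_pos hε).le (H := H) ?_ hX1 hX2
      · have e1 : ‖∑ n ∈ Ico (cnt r ((r : ℝ) ^ J)) (cnt r X),
            (if dg r y n ≠ (d n : ℤ) then (1 : ℂ) else 0)‖ =
            (((Ico (cnt r ((r : ℝ) ^ J)) (cnt r X)).filter
              (fun j => dg r y j ≠ (d j : ℤ))).card : ℝ) := by
          rw [Finset.sum_boole]
          simp
        rw [e1] at hmain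
        refine hmain.trans (le_of_eq ?_)
        ring
      · intro b hb
        rw [cnt_pow hr, cnt_pow hr]
        have e1 : ‖∑ n ∈ Ico (J + b * H) (J + (b + 1) * H),
            (if dg r y n ≠ (d n : ℤ) then (1 : ℂ) else 0)‖ =
            (((Ico (J + b * H) (J + (b + 1) * H)).filter
              (fun j => dg r y j ≠ (d j : ℤ))).card : ℝ) := by
          rw [Finset.sum_boole]
          simp
        rw [e1]
        refine le_trans ?_ (hm b).2.2.1
        -- `y` lies in the half open cylinder of level `b + 1`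
        have hhalf : ∀ b', b' ≤ B → (m b' : ℝ) / (r : ℝ) ^ (J + b' * H) ≤ y ∧
            y < ((m b' : ℝ) + 1) / (r : ℝ) ^ (J + b' * H) := by
          intro b' hb'
          obtain ⟨c, hc⟩ : ∃ c, c = B - b' := ⟨_, rfl⟩
          induction c generalizing b' with
          | zero =>
            have : b' = B := by omega
            rw [this]
            exact ⟨hy1, hy2⟩
          | succ c ih =>
            obtain ⟨h1, h2⟩ := ih (b' + 1) (by omega) (by omega)
            obtain ⟨g1, g2, -⟩ := hm b'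
            have hrp : (0 : ℝ) < (r : ℝ) ^ (J + b' * H) := by positivity
            have hrq : (0 : ℝ) < (r : ℝ) ^ H := by positivity
            have e : J + (b' + 1) * H = J + b' * H + H := by ring
            rw [e, pow_add] at h1 h2
            have g1' : (m b' : ℝ) * (r : ℝ) ^ H ≤ m (b' + 1) := by exact_mod_cast g1
            have g2' : (m (b' + 1) : ℝ) + 1 ≤ ((m b' : ℝ) + 1) * (r : ℝ) ^ H := by
              have : m (b' + 1) + 1 ≤ (m b' + 1) * (r : ℤ) ^ H := g2
              exact_mod_cast this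
            rw [div_le_iff₀ (by positivity)] at h1
            rw [lt_div_iff₀ (by positivity)] at h2
            constructor
            · rw [div_le_iff₀ hrp]
              by_contra hcon
              push Not at hcon
              have := mul_lt_mul_of_pos_right hcon hrq
              nlinarith
            · rw [lt_div_iff₀ hrp]
              by_contra hcon
              push Not at hcon
              have := mul_le_mul_of_nonneg_right hcon hrq.le
              nlinarith
        obtain ⟨h1, h2⟩ := hhalf (b + 1) (by omega)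
        have e : J + (b + 1) * H = J + b * H + H := by ring
        have hcard : ((Ico (J + b * H) (J + (b + 1) * H)).filter
            (fun j => dg r y j ≠ (d j : ℤ))).card ≤
            ((range H).filter (fun i => di r (J + b * H + H) (m (b + 1)) (J + b * H + i) ≠
              (d (J + b * H + i) : ℤ))).card := by
          refine Finset.card_le_card_of_injOn (fun j => j - (J + b * H)) ?_ ?_
          · intro j hj
            rw [Finset.mem_coe, mem_filter, mem_Ico] at hj
            simp only [Finset.coe_filter, Finset.mem_range, Set.mem_ofPred_eq]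
            refine ⟨by omega, ?_⟩
            have e2 : J + b * H + (j - (J + b * H)) = j := by omega
            rw [e2, ← e, ← dg_eq_di hr h1 h2 hj.1.2]
            exact hj.2
          · intro i hi j hj hij
            rw [Finset.mem_coe, mem_filter, mem_Ico] at hi hj
            simp only at hij
            omega
        exact_mod_cast hcard
    · intro t ht y hy X hX1 hX2
      have hs := (hT t ht).1
      have hmain := blocks_to_X hr hs J B (fun n => ee ((s t : ℝ) ^ n * G t y))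
        (fun n => (norm_ee _).le) (half_pos hε).le (H := H) ?_ hX1 hX2
      · refine hmain.trans (le_of_eq ?_)
        ring
      · intro b hb
        have e : J + (b + 1) * H = J + b * H + H := by ring
        have h1 := hnest2 B (b + 1) (by omega) hy
        rw [e] at h1
        rw [e]
        exact (hm b).2.2.2.2 t ht y h1

end MP798203.NL
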