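import Pool.Agent.Lib.MP_798203_nt.NL.MainN

/-!
From functions of one variable to functions on an open connected subset of a Banach space:
restriction to a line in general position.
-/

namespace MP798203.NL

open Real Finset Filter Topology MP798203.AB

/-- `f` is not constant on `U` -/
def NCE {E : Type*} (U : Set E) (f : E → ℝ) : Prop := ¬ ∃ c, ∀ x ∈ U, f x = c

/-- the theorem in one variable for families -/
theorem main_up_idx {U : Set ℝ} (hUo : IsOpen U) (hU : IsPreconnected U) (hUn : U.Nonempty)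
    {ι : Type*} [Countable ι] (p : ι → (ℝ → ℝ) × ℕ) {B : Set ((ℝ → ℝ) × ℕ)} (hB : B.Countable)
    (hp0 : ∀ i, AnalyticOnNhd ℝ (p i).1 U ∧ NC U (p i).1 ∧ 2 ≤ (p i).2)
    (hB0 : ∀ t ∈ B, AnalyticOnNhd ℝ t.1 U ∧ NC U t.1 ∧ 2 ≤ t.2)
    (hAB : ∀ i, ∀ t ∈ B, (∃ (q : ℚ) (c : ℝ), ∀ x ∈ U, t.1 x = q * (p i).1 x + c) →
      ¬ MulDep (p i).2 t.2)
    (d : ι → ℕ → ℕ) (hd : ∀ i j, d i j < (p i).2) :
    ∃ x ∈ U, (∀ t ∈ B, NormalTo t.2 (t.1 x)) ∧
      ∀ i, ∀ ε : ℝ, 0 < ε → ∃ᶠ N : ℕ in atTop, (1 - ε) * N ≤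
        (((range N).filter (fun j => dg (p i).2 ((p i).1 x) j = (d i j : ℤ))).card : ℝ) := by
  classical
  obtain ⟨f0, hf1, hf2, hf3⟩ := exists_dummy_fun hUo hUn hB (fun t ht => (hB0 t ht).2.1)
  obtain ⟨P, hP⟩ : ∃ P : Option ι → (ℝ → ℝ) × ℕ, P = fun o => o.elim (f0, 2) p := ⟨_, rfl⟩
  obtain ⟨D, hD⟩ : ∃ D : Option ι → ℕ → ℕ, D = fun o => o.elim (fun _ => 0) d := ⟨_, rfl⟩
  have hPn : P none = (f0, 2) := by rw [hP]; rfl
  have hPs : ∀ i, P (some i) = p i := fun i => by rw [hP]; rfl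
  have hDn : ∀ j, D none j = 0 := fun j => by rw [hD]; rfl
  have hDs : ∀ i, D (some i) = d i := fun i => by rw [hD]; rfl
  have hP0 : ∀ o, AnalyticOnNhd ℝ (P o).1 U ∧ NC U (P o).1 ∧ 2 ≤ (P o).2 := by
    rintro (_ | i)
    · rw [hPn]; exact ⟨hf1, hf2, le_rfl⟩
    · rw [hPs]; exact hp0 i
  have hDP : ∀ o j, D o j < (P o).2 := by
    rintro (_ | i) j
    · rw [hPn, hDn]; norm_num
    · rw [hPs, hDs]; exact hd i j
  obtain ⟨F, hF⟩ := exists_surjective_nat (Option ι)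
  obtain ⟨x, hxU, hx, ρ, C, hρ, hC, hgrow, hst⟩ := core hUo hU hUn (A := Set.range P)
    (Set.countable_range P) hB (by
      rintro _ ⟨o, rfl⟩
      exact hP0 o) hB0 (by
      rintro _ ⟨o, rfl⟩ t ht hc
      cases o with
      | none =>
        rw [hPn] at hc
        exact absurd hc (hf3 t ht)
      | some i =>
        rw [hPs] at hc ⊢
        exact hAB i t ht hc) (fun k => P (F (Nat.unpair k).1)) (fun k => ⟨_, rfl⟩)
    (fun k => D (F (Nat.unpair k).1)) (fun k j => hDP _ j)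
  refine ⟨x, hxU, hx, fun i₀ ε hε => ?_⟩
  obtain ⟨i, hi⟩ := hF (some i₀)
  have hp2 : 2 ≤ (p i₀).2 := (hp0 i₀).2.2
  have hr1 : (1 : ℝ) < (p i₀).2 := by exact_mod_cast (by omega : 1 < (p i₀).2)
  have hlr : 0 < Real.log (p i₀).2 := Real.log_pos hr1
  rw [frequently_atTop]
  intro N0
  obtain ⟨l, hl⟩ := exists_nat_gt (2 * Real.log (p i₀).2 / ε + N0 * Real.log (p i₀).2)
  set k := Nat.pair i l with hk
  have hk1 : l ≤ k := Nat.right_le_pair _ _
  have hk1' : (l : ℝ) ≤ k := by exact_mod_cast hk1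
  have hFk : F (Nat.unpair k).1 = some i₀ := by
    simp only [hk, Nat.unpair_pair]
    exact hi
  have hstk := hst k
  simp only [hFk, hPs, hDs] at hstk
  obtain ⟨M, hM1, hM2⟩ := digits_end hp2 ((p i₀).1 x) (d i₀) ρ C hρ hC hgrow k hstk
  have hNl : 0 ≤ (N0 : ℝ) * Real.log (p i₀).2 := by positivity
  have hεl : 0 ≤ 2 * Real.log (p i₀).2 / ε := by positivity
  refine ⟨M, ?_, ?_⟩
  · have h1 : (N0 : ℝ) * Real.log (p i₀).2 ≤ M * Real.log (p i₀).2 := by linarith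
    have h2 := le_of_mul_le_mul_right h1 hlr
    exact_mod_cast h2
  · have h1 : (((range M).filter (fun j => dg (p i₀).2 ((p i₀).1 x) j = (d i₀ j : ℤ))).card : ℝ) +
        (((range M).filter (fun j => dg (p i₀).2 ((p i₀).1 x) j ≠ (d i₀ j : ℤ))).card : ℝ) = M := by
      have := Finset.card_filter_add_card_filter_not (s := range M)
        (fun j => dg (p i₀).2 ((p i₀).1 x) j = (d i₀ j : ℤ))
      rw [card_range] at this
      exact_mod_cast this
    have h2 : 2 * Real.log (p i₀).2 / ((k : ℝ) + 1) ≤ ε := by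
      rw [div_le_iff₀ (by positivity)]
      have h3 : 2 * Real.log (p i₀).2 / ε ≤ (k : ℝ) + 1 := by linarith
      rw [div_le_iff₀ hε] at h3
      linarith
    have h3 : 2 * Real.log (p i₀).2 / ((k : ℝ) + 1) * M ≤ ε * M :=
      mul_le_mul_of_nonneg_right h2 (by positivity)
    linarith

section Line

variable {E : Type*} [NormedAddCommGroup E] [NormedSpace ℝ E]

/-- The zero set of a nonzero analytic function has empty interior. -/
theorem exists_ne_of_open {U W : Set E} (hU : IsPreconnected U) {h : E → ℝ}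
    (hh : AnalyticOnNhd ℝ h U) (hc : NCE U h) (hW : IsOpen W) (hWU : W ⊆ U) (hWn : W.Nonempty)
    (c : ℝ) : ∃ x ∈ W, h x ≠ c := by
  by_contra hcon
  push Not at hcon
  obtain ⟨y, hy⟩ := hWn
  apply hc
  refine ⟨c, fun x hx => ?_⟩
  have h1 : h =ᶠ[𝓝 y] fun _ => c := by
    filter_upwards [hW.mem_nhds hy] with z hz using hcon z hz
  exact hh.eqOn_of_preconnected_of_eventuallyEq analyticOnNhd_const hU (hWU hy) h1 hx

variable [CompleteSpace E]

/-- a point of a small ball at which countably many nonconstant analytic functions do not take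
their value at the centre -/
theorem exists_direction {U : Set E} (hU : IsPreconnected U)
    {H : Set (E → ℝ)} (hH : H.Countable) (hH0 : ∀ h ∈ H, AnalyticOnNhd ℝ h U ∧ NCE U h)
    {x0 : E} {ρ : ℝ} (hρ : 0 < ρ) (hb : Metric.ball x0 ρ ⊆ U) :
    ∃ v : E, ‖v‖ < ρ ∧ ∀ h ∈ H, h (x0 + v) ≠ h x0 := by
  classical
  obtain ⟨O, hO⟩ : ∃ O : (E → ℝ) → Set E, O = fun h =>
      {x | x ∈ Metric.ball x0 ρ ∧ h x ≠ h x0} ∪ (closure (Metric.ball x0 ρ))ᶜ := ⟨_, rfl⟩
  have hopen : ∀ h ∈ H, IsOpen (O h) := by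
    intro h hh
    rw [hO]
    refine IsOpen.union ?_ isClosed_closure.isOpen_compl
    have h1 : ContinuousOn h (Metric.ball x0 ρ) := ((hH0 h hh).1.continuousOn).mono hb
    have h2 := h1.isOpen_inter_preimage Metric.isOpen_ball
      (isClosed_singleton (x := h x0)).isOpen_compl
    exact h2
  have hdense : ∀ h ∈ H, Dense (O h) := by
    intro h hh
    rw [dense_iff_inter_open]
    intro W hW hWn
    by_cases hc : (W ∩ (closure (Metric.ball x0 ρ))ᶜ).Nonempty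
    · obtain ⟨y, hy1, hy2⟩ := hc
      refine ⟨y, hy1, ?_⟩
      rw [hO]
      exact Or.inr hy2
    · rw [Set.not_nonempty_iff_eq_empty] at hc
      obtain ⟨y, hy⟩ := hWn
      have hyc : y ∈ closure (Metric.ball x0 ρ) := by
        by_contra hcon
        have : y ∈ W ∩ (closure (Metric.ball x0 ρ))ᶜ := ⟨hy, hcon⟩
        rw [hc] at this
        exact this
      have hne : (W ∩ Metric.ball x0 ρ).Nonempty := mem_closure_iff.1 hyc W hW hy
      obtain ⟨z, hz, hzne⟩ := exists_ne_of_open hU (hH0 h hh).1 (hH0 h hh).2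
        (hW.inter Metric.isOpen_ball) (fun w hw => hb hw.2) hne (h x0)
      refine ⟨z, hz.1, ?_⟩
      rw [hO]
      exact Or.inl ⟨hz.2, hzne⟩
  have hall : Dense (⋂ h ∈ H, O h) := dense_biInter_of_isOpen hopen hH hdense
  obtain ⟨x, hx1, hx2⟩ := hall.inter_open_nonempty (Metric.ball x0 ρ) Metric.isOpen_ball
    ⟨x0, Metric.mem_ball_self hρ⟩
  refine ⟨x - x0, by rwa [Metric.mem_ball, dist_eq_norm] at hx1, fun h hh => ?_⟩
  rw [add_sub_cancel]
  have h1 := Set.mem_iInter₂.1 hx2 h hh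
  rw [hO] at h1
  rcases h1 with h1 | h1
  · exact h1.2
  · exact absurd (subset_closure hx1) h1

/-- the line in general position -/
theorem exists_line {U : Set E} (hUo : IsOpen U) (hU : IsPreconnected U) (hUn : U.Nonempty)
    {H : Set (E → ℝ)} (hH : H.Countable) (hH0 : ∀ h ∈ H, AnalyticOnNhd ℝ h U ∧ NCE U h) :
    ∃ (γ : ℝ → E) (I : Set ℝ), IsOpen I ∧ IsPreconnected I ∧ I.Nonempty ∧
      (∀ t ∈ I, γ t ∈ U) ∧
      (∀ h : E → ℝ, AnalyticOnNhd ℝ h U → AnalyticOnNhd ℝ (fun t => h (γ t)) I) ∧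
      ∀ h ∈ H, NC I (fun t => h (γ t)) := by
  obtain ⟨x0, hx0⟩ := hUn
  obtain ⟨ρ, hρ, hb⟩ := Metric.isOpen_iff.1 hUo x0 hx0
  obtain ⟨v, hv, hH1⟩ := exists_direction hU hH hH0 hρ hb
  have hγc : Continuous fun t : ℝ => x0 + t • v := by fun_prop
  refine ⟨fun t => x0 + t • v, (fun t : ℝ => x0 + t • v) ⁻¹' Metric.ball x0 ρ,
    Metric.isOpen_ball.preimage hγc, ?_, ⟨0, ?_⟩, fun t ht => hb ht, fun h hh => ?_,
    fun h hh => ?_⟩
  · -- the preimage of a ball is convex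
    have hconv : Convex ℝ ((fun t : ℝ => x0 + t • v) ⁻¹' Metric.ball x0 ρ) := by
      have e : (fun t : ℝ => x0 + t • v) ⁻¹' Metric.ball x0 ρ =
          (LinearMap.toSpanSingleton ℝ E v) ⁻¹' Metric.ball 0 ρ := by
        ext t
        simp [Metric.mem_ball, dist_eq_norm]
      rw [e]
      exact (convex_ball (0 : E) ρ).linear_preimage _
    exact hconv.isPreconnected
  · simp [hρ]
  · have h1 : AnalyticOnNhd ℝ (fun t : ℝ => x0 + t • v)
        ((fun t : ℝ => x0 + t • v) ⁻¹' Metric.ball x0 ρ) :=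
      analyticOnNhd_const.add (analyticOnNhd_id.smul analyticOnNhd_const)
    exact hh.comp h1 (fun t ht => hb ht)
  · rintro ⟨c, hc⟩
    have h0 := hc 0 (by simp [hρ])
    have h1 := hc 1 (by simp [hv])
    simp only [zero_smul, add_zero, one_smul] at h0 h1
    exact hH1 h hh (h1.trans h0.symm)

end Line

section Banach

variable {E : Type*} [NormedAddCommGroup E] [NormedSpace ℝ E] [CompleteSpace E]

/-- the functions that a line in general position has to respect -/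
theorem family_countable {A B : Set ((E → ℝ) × ℕ)} (hA : A.Countable) (hB : B.Countable) :
    ((fun p : (E → ℝ) × ℕ => p.1) '' A ∪ (fun p : (E → ℝ) × ℕ => p.1) '' B ∪
      ⋃ p ∈ A, ⋃ t ∈ B, ⋃ q : ℚ, {fun x => t.1 x - (q : ℝ) * p.1 x} : Set (E → ℝ)).Countable := by
  refine ((hA.image _).union (hB.image _)).union ?_
  refine hA.biUnion fun p _ => hB.biUnion fun t _ => ?_
  exact Set.countable_iUnion fun q => Set.countable_singleton _

theorem line_for {U : Set E} (hUo : IsOpen U) (hU : IsPreconnected U) (hUn : U.Nonempty)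
    {A B : Set ((E → ℝ) × ℕ)} (hA : A.Countable) (hB : B.Countable)
    (hA0 : ∀ p ∈ A, AnalyticOnNhd ℝ p.1 U ∧ NCE U p.1 ∧ 2 ≤ p.2)
    (hB0 : ∀ t ∈ B, AnalyticOnNhd ℝ t.1 U ∧ NCE U t.1 ∧ 2 ≤ t.2) :
    ∃ (γ : ℝ → E) (I : Set ℝ), IsOpen I ∧ IsPreconnected I ∧ I.Nonempty ∧
      (∀ t ∈ I, γ t ∈ U) ∧
      (∀ p ∈ A, AnalyticOnNhd ℝ (fun t => p.1 (γ t)) I ∧ NC I (fun t => p.1 (γ t)) ∧ 2 ≤ p.2) ∧
      (∀ p ∈ B, AnalyticOnNhd ℝ (fun t => p.1 (γ t)) I ∧ NC I (fun t => p.1 (γ t)) ∧ 2 ≤ p.2) ∧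
      ∀ p ∈ A, ∀ t ∈ B, (∃ (q : ℚ) (c : ℝ), ∀ x ∈ I, t.1 (γ x) = q * p.1 (γ x) + c) →
        ∃ (q : ℚ) (c : ℝ), ∀ x ∈ U, t.1 x = q * p.1 x + c := by
  classical
  obtain ⟨H, hH⟩ : ∃ H : Set (E → ℝ), H = {h | h ∈ ((fun p : (E → ℝ) × ℕ => p.1) '' A ∪
      (fun p : (E → ℝ) × ℕ => p.1) '' B ∪
      ⋃ p ∈ A, ⋃ t ∈ B, ⋃ q : ℚ, {fun x => t.1 x - (q : ℝ) * p.1 x} : Set (E → ℝ)) ∧
      AnalyticOnNhd ℝ h U ∧ NCE U h} := ⟨_, rfl⟩
  have hHc : H.Countable := (family_countable hA hB).mono fun h hh => by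
    rw [hH] at hh
    exact hh.1
  obtain ⟨γ, I, hI1, hI2, hI3, hI4, hI5, hI6⟩ := exists_line hUo hU hUn hHc
    (fun h hh => by rw [hH] at hh; exact hh.2)
  refine ⟨γ, I, hI1, hI2, hI3, hI4, fun p hp => ⟨hI5 _ (hA0 p hp).1, hI6 _ ?_, (hA0 p hp).2.2⟩,
    fun p hp => ⟨hI5 _ (hB0 p hp).1, hI6 _ ?_, (hB0 p hp).2.2⟩, ?_⟩
  · rw [hH]
    exact ⟨Or.inl (Or.inl ⟨p, hp, rfl⟩), (hA0 p hp).1, (hA0 p hp).2.1⟩
  · rw [hH]
    exact ⟨Or.inl (Or.inr ⟨p, hp, rfl⟩), (hB0 p hp).1, (hB0 p hp).2.1⟩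
  · rintro p hp t ht ⟨q, c, hq⟩
    by_cases hc : NCE U (fun x => t.1 x - (q : ℝ) * p.1 x)
    · exfalso
      have hm : (fun x => t.1 x - (q : ℝ) * p.1 x) ∈ H := by
        rw [hH]
        refine ⟨Or.inr ?_, ?_, hc⟩
        · rw [Set.mem_iUnion₂]
          refine ⟨p, hp, ?_⟩
          rw [Set.mem_iUnion₂]
          refine ⟨t, ht, ?_⟩
          rw [Set.mem_iUnion]
          exact ⟨q, rfl⟩
        · exact (hB0 t ht).1.sub (analyticOnNhd_const.mul (hA0 p hp).1)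
      apply hI6 _ hm
      refine ⟨c, fun x hx => ?_⟩
      simp only
      rw [hq x hx]
      ring
    · unfold NCE at hc
      push Not at hc
      obtain ⟨c', hc'⟩ := hc
      refine ⟨q, c', fun x hx => ?_⟩
      have := hc' x hx
      linarith

theorem tfae_banach {U : Set E} (hUo : IsOpen U) (hU : IsPreconnected U) (hUn : U.Nonempty)
    (A B : Set ((E → ℝ) × ℕ)) (hA : A.Countable) (hB : B.Countable)
    (hA0 : ∀ p ∈ A, AnalyticOnNhd ℝ p.1 U ∧ NCE U p.1 ∧ 2 ≤ p.2)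
    (hB0 : ∀ t ∈ B, AnalyticOnNhd ℝ t.1 U ∧ NCE U t.1 ∧ 2 ≤ t.2) :
    List.TFAE [
      ∀ p ∈ A, ∀ t ∈ B, (∃ (q : ℚ) (c : ℝ), ∀ x ∈ U, t.1 x = q * p.1 x + c) →
        ¬ MulDep p.2 t.2,
      ∀ c : (E → ℝ) × ℕ → ℝ, ∃ x ∈ U, (∀ t ∈ B, NormalTo t.2 (t.1 x)) ∧
        ∀ p ∈ A, ¬ NormalTo p.2 (p.1 x + c p),
      ∀ d : (E → ℝ) × ℕ → ℕ → ℕ, (∀ p j, 2 ≤ p.2 → d p j < p.2) →
        ∃ x ∈ U, (∀ t ∈ B, NormalTo t.2 (t.1 x)) ∧
          ∀ p ∈ A, ∀ ε : ℝ, 0 < ε → ∃ᶠ N : ℕ in atTop, (1 - ε) * N ≤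
            (((range N).filter (fun j => dg p.2 (p.1 x) j = (d p j : ℤ))).card : ℝ)] := by
  classical
  tfae_have 1 → 3 := by
    intro h d hd
    obtain ⟨γ, I, hI1, hI2, hI3, hI4, hIA, hIB, hIAB⟩ := line_for hUo hU hUn hA hB hA0 hB0
    have : Countable A := hA.to_subtype
    obtain ⟨t, htI, ht1, ht2⟩ := main_up_idx hI1 hI2 hI3
      (p := fun i : A => ((fun t => i.1.1 (γ t)), i.1.2))
      (B := (fun p : (E → ℝ) × ℕ => ((fun t => p.1 (γ t)), p.2)) '' B) (hB.image _)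
      (fun i => hIA i.1 i.2) (by
        rintro _ ⟨b, hb, rfl⟩
        exact hIB b hb) (by
        rintro i _ ⟨b, hb, rfl⟩ hc
        exact h i.1 i.2 b hb (hIAB i.1 i.2 b hb hc))
      (fun i => d i.1) (fun i j => hd i.1 j (hA0 i.1 i.2).2.2)
    refine ⟨γ t, hI4 t htI, fun b hb => ht1 _ ⟨b, hb, rfl⟩, fun p hp ε hε => ?_⟩
    exact ht2 ⟨p, hp⟩ ε hε
  tfae_have 3 → 2 := by
    intro h c
    obtain ⟨x, hxU, h1, h2⟩ := h (fun p j => (dg p.2 (-c p) j).toNat) (fun p j hp => by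
      have h3 := dg_bounds hp (-c p) j
      omega)
    refine ⟨x, hxU, h1, fun p hp => ?_⟩
    have hp2 := (hA0 p hp).2.2
    have h3 := h2 p hp (1 / 50) (by norm_num)
    have h4 := diff_not_normal hp2 (y := p.1 x) (y₀ := -c p) (by
      refine h3.mono fun N hN => ?_
      refine hN.trans (le_of_eq ?_)
      congr 2
      refine Finset.filter_congr fun j _ => ?_
      rw [Int.toNat_of_nonneg (dg_bounds hp2 (-c p) j).1])
    rwa [sub_neg_eq_add] at h4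
  tfae_have 2 → 1 := by
    rintro h p hp t ht ⟨q, c, hq⟩ hdep
    have hq0 : q ≠ 0 := by
      rintro rfl
      apply (hB0 t ht).2.1
      refine ⟨c, fun x hx => ?_⟩
      have := hq x hx
      simpa using this
    have hq0' : (q : ℝ) ≠ 0 := by exact_mod_cast hq0
    obtain ⟨x, hxU, h1, h2⟩ := h (fun _ => c / q)
    apply h2 p hp
    have hp2 := (hA0 p hp).2.2
    have h3 := normal_dep hp2 (hB0 t ht).2.2 hdep (h1 t ht)
    have h4 := normalTo_rat hp2 h3 (c := q⁻¹) (inv_ne_zero hq0)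
    have h5 : ((q⁻¹ : ℚ) : ℝ) * t.1 x = p.1 x + c / q := by
      rw [hq x hxU]
      push_cast
      field_simp
    rwa [h5] at h4
  tfae_finish

theorem iff_zero_banach {U : Set E} (hUo : IsOpen U) (hU : IsPreconnected U) (hUn : U.Nonempty)
    {f : E → ℝ} (hf : AnalyticOnNhd ℝ f U) (hfc : NCE U f) {r : ℕ} (hr : 2 ≤ r)
    {B : Set ((E → ℝ) × ℕ)} (hB : B.Countable)
    (hB0 : ∀ t ∈ B, AnalyticOnNhd ℝ t.1 U ∧ NCE U t.1 ∧ 2 ≤ t.2) :
    (∀ t ∈ B, (∃ (q : ℚ) (c : ℝ), ∀ x ∈ U, t.1 x = q * f x + c) → ¬ MulDep r t.2) ↔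
      ∀ d : ℕ → ℕ, (∀ j, d j < r) → ∃ x ∈ U, (∀ t ∈ B, NormalTo t.2 (t.1 x)) ∧
        Tendsto (fun N : ℕ => (((range N).filter
          (fun j => dg r (f x) j ≠ (d j : ℤ))).card : ℝ) / N) atTop (𝓝 0) := by
  classical
  constructor
  · intro h d hd
    obtain ⟨γ, I, hI1, hI2, hI3, hI4, hIA, hIB, hIAB⟩ := line_for hUo hU hUn (A := {(f, r)})
      (Set.countable_singleton _) hB (by
        rintro p hp
        rw [Set.mem_singleton_iff] at hp
        subst hp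
        exact ⟨hf, hfc, hr⟩) hB0
    have hfI := hIA (f, r) rfl
    obtain ⟨t, htI, ht1, ht2⟩ := main_zero hI1 hI2 hI3 hfI.1 hfI.2.1 hr
      (B := (fun p : (E → ℝ) × ℕ => ((fun t => p.1 (γ t)), p.2)) '' B) (hB.image _) (by
        rintro _ ⟨b, hb, rfl⟩
        exact hIB b hb) (by
        rintro _ ⟨b, hb, rfl⟩ hc
        exact h b hb (hIAB (f, r) rfl b hb hc)) d hd
    exact ⟨γ t, hI4 t htI, fun b hb => ht1 _ ⟨b, hb, rfl⟩, ht2⟩
  · rintro h t ht ⟨q, c, hq⟩ hdep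
    have hq0 : q ≠ 0 := by
      rintro rfl
      apply (hB0 t ht).2.1
      refine ⟨c, fun x hx => ?_⟩
      have := hq x hx
      simpa using this
    have hq0' : (q : ℝ) ≠ 0 := by exact_mod_cast hq0
    obtain ⟨x, hxU, h1, h2⟩ := h (fun j => (dg r (-(c / q)) j).toNat) (fun j => by
      have h3 := dg_bounds hr (-(c / q)) j
      omega)
    have h3 := normal_dep hr (hB0 t ht).2.2 hdep (h1 t ht)
    have h4 := normalTo_rat hr h3 (c := q⁻¹) (inv_ne_zero hq0)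
    have h5 : ((q⁻¹ : ℚ) : ℝ) * t.1 x = f x - -(c / q) := by
      rw [hq x hxU]
      push_cast
      field_simp
      ring
    rw [h5] at h4
    refine diff_not_normal hr (y := f x) (y₀ := -(c / q)) ?_ h4
    have h6 : ∀ᶠ N : ℕ in atTop, (((range N).filter
        (fun j => dg r (f x) j ≠ ((dg r (-(c / q)) j).toNat : ℤ))).card : ℝ) / N < 1 / 50 :=
      h2.eventually (gt_mem_nhds (by norm_num))
    refine ((h6.and (eventually_gt_atTop 0)).mono ?_).frequently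
    rintro N ⟨h7, hN⟩
    have hN0 : (0 : ℝ) < N := by exact_mod_cast hN
    rw [div_lt_iff₀ hN0] at h7
    have h8 : (((range N).filter (fun j => dg r (f x) j = dg r (-(c / q)) j)).card : ℝ) +
        (((range N).filter (fun j => dg r (f x) j ≠ dg r (-(c / q)) j)).card : ℝ) = N := by
      have := Finset.card_filter_add_card_filter_not (s := range N)
        (fun j => dg r (f x) j = dg r (-(c / q)) j)
      rw [card_range] at this
      exact_mod_cast this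
    have h9 : (range N).filter (fun j => dg r (f x) j ≠ ((dg r (-(c / q)) j).toNat : ℤ)) =
        (range N).filter (fun j => dg r (f x) j ≠ dg r (-(c / q)) j) := by
      refine Finset.filter_congr fun j _ => ?_
      rw [Int.toNat_of_nonneg (dg_bounds hr (-(c / q)) j).1]
    rw [h9] at h7
    linarith

end Banach

end MP798203.NL
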