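import Pool.Agent.Lib.MP_798203_nt.AB.Bridge

/-!
If the digits of `y` and `y₀` agree on a set of upper density one, then `y - y₀` is not normal.
-/

namespace MP798203.NL

open Real Finset Filter Topology MP798203.AB

theorem floor_step {r : ℕ} (hr : 2 ≤ r) (y y₀ : ℝ) (n : ℕ) (h : dg r y n = dg r y₀ n) :
    ⌊y * (r : ℝ) ^ (n + 1)⌋ - ⌊y₀ * (r : ℝ) ^ (n + 1)⌋ =
      r * (⌊y * (r : ℝ) ^ n⌋ - ⌊y₀ * (r : ℝ) ^ n⌋) := by
  have hr0 : (r : ℝ) ≠ 0 := by
    have : r ≠ 0 := by omega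
    exact_mod_cast this
  have key : ∀ w : ℝ, ⌊w * (r : ℝ) ^ n⌋ = ⌊w * (r : ℝ) ^ (n + 1)⌋ / (r : ℤ) := by
    intro w
    have e : w * (r : ℝ) ^ n = w * (r : ℝ) ^ (n + 1) / ((r : ℕ) : ℝ) := by
      rw [pow_succ]
      field_simp
    rw [e, Int.floor_div_natCast]
  unfold dg at h
  rw [key y, key y₀]
  have h1 := Int.emod_add_mul_ediv ⌊y * (r : ℝ) ^ (n + 1)⌋ (r : ℤ)
  have h2 := Int.emod_add_mul_ediv ⌊y₀ * (r : ℝ) ^ (n + 1)⌋ (r : ℤ)
  rw [mul_sub]
  linarith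

theorem floor_steps {r : ℕ} (hr : 2 ≤ r) (y y₀ : ℝ) (n L : ℕ)
    (h : ∀ i < L, dg r y (n + i) = dg r y₀ (n + i)) :
    ⌊y * (r : ℝ) ^ (n + L)⌋ - ⌊y₀ * (r : ℝ) ^ (n + L)⌋ =
      (r : ℤ) ^ L * (⌊y * (r : ℝ) ^ n⌋ - ⌊y₀ * (r : ℝ) ^ n⌋) := by
  induction L with
  | zero => simp
  | succ L ih =>
    rw [← add_assoc, floor_step hr y y₀ (n + L) (h L (Nat.lt_succ_self L)),
      ih fun i hi => h i (by omega), pow_succ]
    ring

theorem near_int {r : ℕ} (hr : 2 ≤ r) (y y₀ : ℝ) (n : ℕ)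
    (h : ∀ i < 5, dg r y (n + i) = dg r y₀ (n + i)) :
    ‖ee ((r : ℝ) ^ n * (y - y₀)) - 1‖ ≤ 1 / 5 := by
  have hrr : (2 : ℝ) ≤ r := by exact_mod_cast hr
  have hr0 : (0 : ℝ) < r := by linarith
  have hr5 : (32 : ℝ) ≤ (r : ℝ) ^ 5 := by
    calc (32 : ℝ) = 2 ^ 5 := by norm_num
      _ ≤ (r : ℝ) ^ 5 := pow_le_pow_left₀ (by norm_num) hrr 5
  obtain ⟨F, hF⟩ : ∃ F : ℤ, F = ⌊y * (r : ℝ) ^ n⌋ - ⌊y₀ * (r : ℝ) ^ n⌋ := ⟨_, rfl⟩
  have h1 := floor_steps hr y y₀ n 5 h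
  rw [← hF] at h1
  have h2 : ((⌊y * (r : ℝ) ^ (n + 5)⌋ : ℝ)) - (⌊y₀ * (r : ℝ) ^ (n + 5)⌋ : ℝ) =
      (r : ℝ) ^ 5 * (F : ℝ) := by exact_mod_cast h1
  have h3 : |(r : ℝ) ^ 5 * ((r : ℝ) ^ n * (y - y₀) - F)| < 1 := by
    have e : (r : ℝ) ^ 5 * ((r : ℝ) ^ n * (y - y₀) - F) =
        (y * (r : ℝ) ^ (n + 5) - ⌊y * (r : ℝ) ^ (n + 5)⌋) -
          (y₀ * (r : ℝ) ^ (n + 5) - ⌊y₀ * (r : ℝ) ^ (n + 5)⌋) := by
      have : (r : ℝ) ^ (n + 5) = (r : ℝ) ^ 5 * (r : ℝ) ^ n := by rw [pow_add]; ring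
      rw [mul_sub, ← h2, this]
      ring
    rw [e, abs_lt]
    have a1 := Int.floor_le (y * (r : ℝ) ^ (n + 5))
    have a2 := Int.lt_floor_add_one (y * (r : ℝ) ^ (n + 5))
    have a3 := Int.floor_le (y₀ * (r : ℝ) ^ (n + 5))
    have a4 := Int.lt_floor_add_one (y₀ * (r : ℝ) ^ (n + 5))
    constructor <;> linarith
  have h4 : |(r : ℝ) ^ n * (y - y₀) - F| ≤ 1 / 32 := by
    rw [abs_mul, abs_of_pos (by positivity)] at h3
    have h5 := abs_nonneg ((r : ℝ) ^ n * (y - y₀) - F)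
    nlinarith
  have e1 : (1 : ℂ) = ee (F : ℝ) := (ee_int F).symm
  rw [e1]
  refine (norm_ee_sub_le _ _).trans ?_
  have hπ : π < 3.15 := Real.pi_lt_d2
  have hπ0 : 0 < π := Real.pi_pos
  calc 2 * π * |(r : ℝ) ^ n * (y - y₀) - F| ≤ 2 * π * (1 / 32) :=
        mul_le_mul_of_nonneg_left h4 (by positivity)
    _ ≤ 1 / 5 := by norm_num at hπ ⊢; linarith

theorem count_shift (E : ℕ → Prop) [DecidablePred E] (N i : ℕ) :
    ((range N).filter (fun n => E (n + i))).card ≤ ((range N).filter E).card + i := by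
  classical
  have h1 : ((range N).filter (fun n => E (n + i))).card ≤
      ((range (N + i)).filter E).card := by
    refine Finset.card_le_card_of_injOn (fun n => n + i) ?_ ?_
    · intro n hn
      rw [Finset.mem_coe, mem_filter, mem_range] at hn
      rw [Finset.mem_coe, mem_filter, mem_range]
      exact ⟨Nat.add_lt_add_right hn.1 i, hn.2⟩
    · intro a _ b _ hab
      simp only at hab
      omega
  refine h1.trans ?_
  have h2 : (range (N + i)).filter E ⊆ (range N).filter E ∪ (range (N + i) \ range N) := by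
    intro n hn
    rw [mem_filter, mem_range] at hn
    rw [mem_union, mem_filter, Finset.mem_sdiff, mem_range, mem_range]
    rcases Nat.lt_or_ge n N with h | h
    · exact Or.inl ⟨h, hn.2⟩
    · exact Or.inr ⟨hn.1, by omega⟩
  refine (Finset.card_le_card h2).trans ((Finset.card_union_le _ _).trans ?_)
  rw [Finset.card_sdiff_of_subset (Finset.range_subset_range.2 (Nat.le_add_right N i)), card_range,
    card_range]
  omega

theorem diff_not_normal {r : ℕ} (hr : 2 ≤ r) {y y₀ : ℝ}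
    (h : ∃ᶠ N : ℕ in atTop, (1 - 1 / 50 : ℝ) * N ≤
      (((range N).filter (fun j => dg r y j = dg r y₀ j)).card : ℝ)) :
    ¬ NormalTo r (y - y₀) := by
  classical
  intro hn
  rw [normalTo_iff_weyl hr] at hn
  have h1 := hn 1 le_rfl
  have h2 : ∀ᶠ N : ℕ in atTop,
      ‖∑ n ∈ range N, ee ((1 : ℕ) * ((r : ℝ) ^ n * (y - y₀)))‖ / N < 1 / 2 :=
    h1.eventually (gt_mem_nhds (by norm_num))
  obtain ⟨N, h3, h4, h5⟩ := (h.and_eventually (h2.and (eventually_ge_atTop 600))).exists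
  have hN : (600 : ℝ) ≤ N := by exact_mod_cast h5
  have hN0 : (0 : ℝ) < N := by linarith
  rw [div_lt_iff₀ hN0] at h4
  -- the bad set
  obtain ⟨P, hP⟩ : ∃ P : ℕ → Prop, P = fun n => ∀ i < 5, dg r y (n + i) = dg r y₀ (n + i) :=
    ⟨_, rfl⟩
  obtain ⟨G, hG⟩ : ∃ G : Finset ℕ, G = (range N).filter P := ⟨_, rfl⟩
  obtain ⟨Bd, hBd⟩ : ∃ Bd : Finset ℕ, Bd = (range N).filter (fun n => ¬ P n) := ⟨_, rfl⟩
  have hBdc : (Bd.card : ℝ) ≤ 5 * (((range N).filter
      (fun j => dg r y j ≠ dg r y₀ j)).card : ℝ) + 25 := by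
    have e1 : Bd ⊆ (range 5).biUnion
        (fun i => (range N).filter (fun n => dg r y (n + i) ≠ dg r y₀ (n + i))) := by
      intro n hn
      rw [hBd, mem_filter, hP] at hn
      obtain ⟨hn1, hn2⟩ := hn
      push Not at hn2
      obtain ⟨i, hi, hne⟩ := hn2
      rw [mem_biUnion]
      exact ⟨i, mem_range.2 hi, mem_filter.2 ⟨hn1, hne⟩⟩
    have e2 : Bd.card ≤ ∑ i ∈ range 5, (((range N).filter
        (fun j => dg r y j ≠ dg r y₀ j)).card + 5) := by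
      refine (Finset.card_le_card e1).trans (Finset.card_biUnion_le.trans ?_)
      refine Finset.sum_le_sum fun i hi => ?_
      have e3 := count_shift (fun j => dg r y j ≠ dg r y₀ j) N i
      rw [mem_range] at hi
      refine e3.trans ?_
      omega
    rw [Finset.sum_const, card_range, smul_eq_mul] at e2
    have e4 : (Bd.card : ℝ) ≤ 5 * ((((range N).filter
        (fun j => dg r y j ≠ dg r y₀ j)).card : ℝ) + 5) := by exact_mod_cast e2
    linarith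
  have hsplit : (((range N).filter (fun j => dg r y j = dg r y₀ j)).card : ℝ) +
      (((range N).filter (fun j => dg r y j ≠ dg r y₀ j)).card : ℝ) = N := by
    have := Finset.card_filter_add_card_filter_not (s := range N)
      (fun j => dg r y j = dg r y₀ j)
    rw [card_range] at this
    exact_mod_cast this
  have hBd2 : (Bd.card : ℝ) ≤ 1 / 10 * N + 25 := by linarith
  -- comparison with `N`
  have hdiff : ‖∑ n ∈ range N, (ee ((1 : ℕ) * ((r : ℝ) ^ n * (y - y₀))) - 1)‖ ≤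
      1 / 5 * N + 2 * Bd.card := by
    have e1 : ∑ n ∈ range N, (ee ((1 : ℕ) * ((r : ℝ) ^ n * (y - y₀))) - 1) =
        ∑ n ∈ G, (ee ((1 : ℕ) * ((r : ℝ) ^ n * (y - y₀))) - 1) +
        ∑ n ∈ Bd, (ee ((1 : ℕ) * ((r : ℝ) ^ n * (y - y₀))) - 1) := by
      rw [hG, hBd, Finset.sum_filter_add_sum_filter_not]
    rw [e1]
    refine (norm_add_le _ _).trans (add_le_add ?_ ?_)
    · refine (norm_sum_le _ _).trans ?_
      have e2 : ∀ n ∈ G, ‖ee ((1 : ℕ) * ((r : ℝ) ^ n * (y - y₀))) - 1‖ ≤ 1 / 5 := by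
        intro n hn
        rw [hG, mem_filter, hP] at hn
        rw [Nat.cast_one, one_mul]
        exact near_int hr y y₀ n hn.2
      refine (Finset.sum_le_sum e2).trans ?_
      rw [Finset.sum_const, nsmul_eq_mul]
      have e3 : (G.card : ℝ) ≤ N := by
        have : G.card ≤ (range N).card := by
          rw [hG]
          exact Finset.card_filter_le _ _
        rw [card_range] at this
        exact_mod_cast this
      linarith
    · refine (norm_sum_le _ _).trans ?_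
      have e2 : ∀ n ∈ Bd, ‖ee ((1 : ℕ) * ((r : ℝ) ^ n * (y - y₀))) - 1‖ ≤ 2 := by
        intro n _
        refine (norm_sub_le _ _).trans ?_
        rw [norm_ee, norm_one]
        norm_num
      refine (Finset.sum_le_sum e2).trans ?_
      rw [Finset.sum_const, nsmul_eq_mul]
      linarith
  have hfin : (N : ℝ) ≤ ‖∑ n ∈ range N, ee ((1 : ℕ) * ((r : ℝ) ^ n * (y - y₀)))‖ +
      (1 / 5 * N + 2 * Bd.card) := by
    have e1 : ‖(N : ℂ)‖ = N := Complex.norm_natCast N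
    have e2 : (N : ℂ) = ∑ n ∈ range N, ee ((1 : ℕ) * ((r : ℝ) ^ n * (y - y₀))) -
        ∑ n ∈ range N, (ee ((1 : ℕ) * ((r : ℝ) ^ n * (y - y₀))) - 1) := by
      rw [← Finset.sum_sub_distrib]
      simp
    calc (N : ℝ) = ‖(N : ℂ)‖ := e1.symm
      _ ≤ ‖∑ n ∈ range N, ee ((1 : ℕ) * ((r : ℝ) ^ n * (y - y₀)))‖ +
          ‖∑ n ∈ range N, (ee ((1 : ℕ) * ((r : ℝ) ^ n * (y - y₀))) - 1)‖ := by
          conv_lhs => rw [e2]
          exact norm_sub_le _ _
      _ ≤ _ := by linarith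
  linarith

end MP798203.NL
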