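import Pool.Agent.Lib.MP_798203_nt.NL.CoreN
import Pool.Agent.Lib.MP_798203_nt.NL.Nec

/-!
Normality of the values of analytic functions: the two main theorems.
-/

namespace MP798203.NL

open Real Finset Filter Topology MP798203.AB

theorem dg_bounds {r : ℕ} (hr : 2 ≤ r) (y : ℝ) (j : ℕ) : 0 ≤ dg r y j ∧ dg r y j < r := by
  unfold dg
  have h : (0 : ℤ) < r := by exact_mod_cast (by omega : 0 < r)
  exact ⟨Int.emod_nonneg _ h.ne', Int.emod_lt_of_pos _ h⟩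

theorem main_up {U : Set ℝ} (hUo : IsOpen U) (hU : IsPreconnected U) (hUn : U.Nonempty)
    {A B : Set ((ℝ → ℝ) × ℕ)} (hA : A.Countable) (hB : B.Countable)
    (hA0 : ∀ p ∈ A, AnalyticOnNhd ℝ p.1 U ∧ NC U p.1 ∧ 2 ≤ p.2)
    (hB0 : ∀ t ∈ B, AnalyticOnNhd ℝ t.1 U ∧ NC U t.1 ∧ 2 ≤ t.2)
    (hAB : ∀ p ∈ A, ∀ t ∈ B, (∃ (q : ℚ) (c : ℝ), ∀ x ∈ U, t.1 x = q * p.1 x + c) →
      ¬ MulDep p.2 t.2)
    (d : (ℝ → ℝ) × ℕ → ℕ → ℕ) (hd : ∀ p j, 2 ≤ p.2 → d p j < p.2) :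
    ∃ x ∈ U, (∀ t ∈ B, NormalTo t.2 (t.1 x)) ∧
      ∀ p ∈ A, ∀ ε : ℝ, 0 < ε → ∃ᶠ N : ℕ in atTop, (1 - ε) * N ≤
        (((range N).filter (fun j => dg p.2 (p.1 x) j = (d p j : ℤ))).card : ℝ) := by
  classical
  obtain ⟨f0, hf1, hf2, hf3⟩ := exists_dummy_fun hUo hUn hB (fun t ht => (hB0 t ht).2.1)
  set A' : Set ((ℝ → ℝ) × ℕ) := A ∪ {(f0, 2)} with hA'
  have hA'c : A'.Countable := hA.union (Set.countable_singleton _)
  have hA'0 : ∀ p ∈ A', AnalyticOnNhd ℝ p.1 U ∧ NC U p.1 ∧ 2 ≤ p.2 := by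
    rintro p (hp | hp)
    · exact hA0 p hp
    · rw [Set.mem_singleton_iff] at hp
      subst hp
      exact ⟨hf1, hf2, le_rfl⟩
  have hA'B : ∀ p ∈ A', ∀ t ∈ B, (∃ (q : ℚ) (c : ℝ), ∀ x ∈ U, t.1 x = q * p.1 x + c) →
      ¬ MulDep p.2 t.2 := by
    rintro p (hp | hp) t ht hc
    · exact hAB p hp t ht hc
    · rw [Set.mem_singleton_iff] at hp
      subst hp
      exact absurd hc (hf3 t ht)
  obtain ⟨F, hF⟩ := hA'c.exists_eq_range ⟨(f0, 2), Or.inr rfl⟩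
  have hFA : ∀ i, F i ∈ A' := fun i => by rw [hF]; exact ⟨i, rfl⟩
  obtain ⟨σ, hσ⟩ : ∃ σ : ℕ → (ℝ → ℝ) × ℕ, σ = fun k => F (Nat.unpair k).1 := ⟨_, rfl⟩
  have hσA : ∀ k, σ k ∈ A' := fun k => by rw [hσ]; exact hFA _
  obtain ⟨x, hxU, hx, ρ, C, hρ, hC, hgrow, hst⟩ := core hUo hU hUn hA'c hB hA'0 hB0 hA'B σ hσA
    (fun k => d (σ k)) (fun k j => hd _ _ (hA'0 _ (hσA k)).2.2)
  refine ⟨x, hxU, hx, fun p hp ε hε => ?_⟩
  have hp' : p ∈ A' := Or.inl hp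
  rw [hF] at hp'
  obtain ⟨i, hi⟩ := hp'
  have hp2 : 2 ≤ p.2 := (hA0 p hp).2.2
  have hr1 : (1 : ℝ) < p.2 := by exact_mod_cast (by omega : 1 < p.2)
  have hlr : 0 < Real.log p.2 := Real.log_pos hr1
  rw [frequently_atTop]
  intro N0
  obtain ⟨l, hl⟩ := exists_nat_gt (2 * Real.log p.2 / ε + N0 * Real.log p.2)
  set k := Nat.pair i l with hk
  have hk1 : l ≤ k := Nat.right_le_pair _ _
  have hk1' : (l : ℝ) ≤ k := by exact_mod_cast hk1
  have hσk : σ k = p := by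
    rw [hσ]
    simp only [hk, Nat.unpair_pair]
    exact hi
  have hstk := hst k
  simp only [hσk] at hstk
  obtain ⟨M, hM1, hM2⟩ := digits_end hp2 (p.1 x) (d p) ρ C hρ hC hgrow k hstk
  have hNl : 0 ≤ (N0 : ℝ) * Real.log p.2 := by positivity
  have hεl : 0 ≤ 2 * Real.log p.2 / ε := by positivity
  refine ⟨M, ?_, ?_⟩
  · have h1 : (N0 : ℝ) * Real.log p.2 ≤ M * Real.log p.2 := by linarith
    have h2 := le_of_mul_le_mul_right h1 hlr
    exact_mod_cast h2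
  · have h1 : (((range M).filter (fun j => dg p.2 (p.1 x) j = (d p j : ℤ))).card : ℝ) +
        (((range M).filter (fun j => dg p.2 (p.1 x) j ≠ (d p j : ℤ))).card : ℝ) = M := by
      have := Finset.card_filter_add_card_filter_not (s := range M)
        (fun j => dg p.2 (p.1 x) j = (d p j : ℤ))
      rw [card_range] at this
      exact_mod_cast this
    have h2 : 2 * Real.log p.2 / ((k : ℝ) + 1) ≤ ε := by
      rw [div_le_iff₀ (by positivity)]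
      have h3 : 2 * Real.log p.2 / ε ≤ (k : ℝ) + 1 := by linarith
      rw [div_le_iff₀ hε] at h3
      linarith
    have h3 : 2 * Real.log p.2 / ((k : ℝ) + 1) * M ≤ ε * M :=
      mul_le_mul_of_nonneg_right h2 (by positivity)
    linarith

theorem tfae_nl {U : Set ℝ} (hUo : IsOpen U) (hU : IsPreconnected U) (hUn : U.Nonempty)
    (A B : Set ((ℝ → ℝ) × ℕ)) (hA : A.Countable) (hB : B.Countable)
    (hA0 : ∀ p ∈ A, AnalyticOnNhd ℝ p.1 U ∧ NC U p.1 ∧ 2 ≤ p.2)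
    (hB0 : ∀ t ∈ B, AnalyticOnNhd ℝ t.1 U ∧ NC U t.1 ∧ 2 ≤ t.2) :
    List.TFAE [
      ∀ p ∈ A, ∀ t ∈ B, (∃ (q : ℚ) (c : ℝ), ∀ x ∈ U, t.1 x = q * p.1 x + c) →
        ¬ MulDep p.2 t.2,
      ∀ c : (ℝ → ℝ) × ℕ → ℝ, ∃ x ∈ U, (∀ t ∈ B, NormalTo t.2 (t.1 x)) ∧
        ∀ p ∈ A, ¬ NormalTo p.2 (p.1 x + c p),
      ∀ d : (ℝ → ℝ) × ℕ → ℕ → ℕ, (∀ p j, 2 ≤ p.2 → d p j < p.2) →
        ∃ x ∈ U, (∀ t ∈ B, NormalTo t.2 (t.1 x)) ∧
          ∀ p ∈ A, ∀ ε : ℝ, 0 < ε → ∃ᶠ N : ℕ in atTop, (1 - ε) * N ≤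
            (((range N).filter (fun j => dg p.2 (p.1 x) j = (d p j : ℤ))).card : ℝ)] := by
  classical
  tfae_have 1 → 3 := fun h d hd => main_up hUo hU hUn hA hB hA0 hB0 h d hd
  tfae_have 3 → 2 := by
    intro h c
    obtain ⟨x, hxU, h1, h2⟩ := h (fun p j => (dg p.2 (-c p) j).toNat) (fun p j hp => by
      have h3 := dg_bounds hp (-c p) j
      omega)
    refine ⟨x, hxU, h1, fun p hp => ?_⟩
    have hp2 := (hA0 p hp).2.2
    have h3 := h2 p hp (1 / 50) (by norm_num)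
    have h4 := diff_not_normal hp2 (y := p.1 x) (y₀ := -c p) (by
      refine h3.mono fun N hN => ?_
      refine hN.trans (le_of_eq ?_)
      congr 2
      refine Finset.filter_congr fun j _ => ?_
      rw [Int.toNat_of_nonneg (dg_bounds hp2 (-c p) j).1])
    rwa [sub_neg_eq_add] at h4
  tfae_have 2 → 1 := by
    rintro h p hp t ht ⟨q, c, hq⟩ hdep
    have hq0 : q ≠ 0 := by
      rintro rfl
      apply (hB0 t ht).2.1
      refine ⟨c, fun x hx => ?_⟩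
      have := hq x hx
      simpa using this
    have hq0' : (q : ℝ) ≠ 0 := by exact_mod_cast hq0
    obtain ⟨x, hxU, h1, h2⟩ := h (fun _ => c / q)
    apply h2 p hp
    have hp2 := (hA0 p hp).2.2
    have h3 := normal_dep hp2 (hB0 t ht).2.2 hdep (h1 t ht)
    have h4 := normalTo_rat hp2 h3 (c := q⁻¹) (inv_ne_zero hq0)
    have h5 : ((q⁻¹ : ℚ) : ℝ) * t.1 x = p.1 x + c / q := by
      rw [hq x hxU]
      push_cast
      field_simp
    rwa [h5] at h4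
  tfae_finish

theorem main_zero {U : Set ℝ} (hUo : IsOpen U) (hU : IsPreconnected U) (hUn : U.Nonempty)
    {f : ℝ → ℝ} (hf : AnalyticOnNhd ℝ f U) (hfc : NC U f) {r : ℕ} (hr : 2 ≤ r)
    {B : Set ((ℝ → ℝ) × ℕ)} (hB : B.Countable)
    (hB0 : ∀ t ∈ B, AnalyticOnNhd ℝ t.1 U ∧ NC U t.1 ∧ 2 ≤ t.2)
    (hAB : ∀ t ∈ B, (∃ (q : ℚ) (c : ℝ), ∀ x ∈ U, t.1 x = q * f x + c) → ¬ MulDep r t.2)
    (d : ℕ → ℕ) (hd : ∀ j, d j < r) :
    ∃ x ∈ U, (∀ t ∈ B, NormalTo t.2 (t.1 x)) ∧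
      Tendsto (fun N : ℕ => (((range N).filter (fun j => dg r (f x) j ≠ (d j : ℤ))).card : ℝ) / N)
        atTop (𝓝 0) := by
  classical
  obtain ⟨x, hxU, hx, ρ, C, hρ, hC, hgrow, hst⟩ := core hUo hU hUn
    (A := {(f, r)}) (Set.countable_singleton _) hB (by
      rintro p hp
      rw [Set.mem_singleton_iff] at hp
      subst hp
      exact ⟨hf, hfc, hr⟩) hB0 (by
      rintro p hp t ht
      rw [Set.mem_singleton_iff] at hp
      subst hp
      exact hAB t ht) (fun _ => (f, r)) (fun _ => rfl) (fun _ => d) (fun _ j => hd j)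
  refine ⟨x, hxU, hx, ?_⟩
  have h1 := lim_of_stages hr (fun j => if dg r (f x) j ≠ (d j : ℤ) then (1 : ℂ) else 0)
    (fun j => by split_ifs <;> simp) ρ C hρ hC hgrow 0 (by
      intro k _ X hX1 hX2
      rw [Finset.sum_boole, Complex.norm_natCast]
      exact hst k X hX1 hX2)
  refine h1.congr fun N => ?_
  rw [Finset.sum_boole, Complex.norm_natCast]

theorem iff_zero {U : Set ℝ} (hUo : IsOpen U) (hU : IsPreconnected U) (hUn : U.Nonempty)
    {f : ℝ → ℝ} (hf : AnalyticOnNhd ℝ f U) (hfc : NC U f) {r : ℕ} (hr : 2 ≤ r)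
    {B : Set ((ℝ → ℝ) × ℕ)} (hB : B.Countable)
    (hB0 : ∀ t ∈ B, AnalyticOnNhd ℝ t.1 U ∧ NC U t.1 ∧ 2 ≤ t.2) :
    (∀ t ∈ B, (∃ (q : ℚ) (c : ℝ), ∀ x ∈ U, t.1 x = q * f x + c) → ¬ MulDep r t.2) ↔
      ∀ d : ℕ → ℕ, (∀ j, d j < r) → ∃ x ∈ U, (∀ t ∈ B, NormalTo t.2 (t.1 x)) ∧
        Tendsto (fun N : ℕ => (((range N).filter
          (fun j => dg r (f x) j ≠ (d j : ℤ))).card : ℝ) / N) atTop (𝓝 0) := by
  classical
  constructor
  · intro h d hd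
    exact main_zero hUo hU hUn hf hfc hr hB hB0 h d hd
  · rintro h t ht ⟨q, c, hq⟩ hdep
    have hq0 : q ≠ 0 := by
      rintro rfl
      apply (hB0 t ht).2.1
      refine ⟨c, fun x hx => ?_⟩
      have := hq x hx
      simpa using this
    have hq0' : (q : ℝ) ≠ 0 := by exact_mod_cast hq0
    obtain ⟨x, hxU, h1, h2⟩ := h (fun j => (dg r (-(c / q)) j).toNat) (fun j => by
      have h3 := dg_bounds hr (-(c / q)) j
      omega)
    have h3 := normal_dep hr (hB0 t ht).2.2 hdep (h1 t ht)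
    have h4 := normalTo_rat hr h3 (c := q⁻¹) (inv_ne_zero hq0)
    have h5 : ((q⁻¹ : ℚ) : ℝ) * t.1 x = f x - -(c / q) := by
      rw [hq x hxU]
      push_cast
      field_simp
      ring
    rw [h5] at h4
    refine diff_not_normal hr (y := f x) (y₀ := -(c / q)) ?_ h4
    have h6 : ∀ᶠ N : ℕ in atTop, (((range N).filter
        (fun j => dg r (f x) j ≠ ((dg r (-(c / q)) j).toNat : ℤ))).card : ℝ) / N < 1 / 50 :=
      h2.eventually (gt_mem_nhds (by norm_num))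
    refine ((h6.and (eventually_gt_atTop 0)).mono ?_).frequently
    rintro N ⟨h7, hN⟩
    have hN0 : (0 : ℝ) < N := by exact_mod_cast hN
    rw [div_lt_iff₀ hN0] at h7
    have h8 : (((range N).filter (fun j => dg r (f x) j = dg r (-(c / q)) j)).card : ℝ) +
        (((range N).filter (fun j => dg r (f x) j ≠ dg r (-(c / q)) j)).card : ℝ) = N := by
      have := Finset.card_filter_add_card_filter_not (s := range N)
        (fun j => dg r (f x) j = dg r (-(c / q)) j)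
      rw [card_range] at this
      exact_mod_cast this
    have h9 : (range N).filter (fun j => dg r (f x) j ≠ ((dg r (-(c / q)) j).toNat : ℤ)) =
        (range N).filter (fun j => dg r (f x) j ≠ dg r (-(c / q)) j) := by
      refine Finset.filter_congr fun j _ => ?_
      rw [Int.toNat_of_nonneg (dg_bounds hr (-(c / q)) j).1]
    rw [h9] at h7
    linarith

end MP798203.NL
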