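import Pool.Agent.Lib.MP_798203_nt.NL.IterN
import Pool.Agent.Lib.MP_798203_nt.NL.Coord
import Pool.Agent.Lib.MP_798203_nt.AB.Ball

/-!
One stage near a point `x₀` with `f' (x₀) ≠ 0`: run the blocks in the coordinate `y = f x`.
-/

namespace MP798203.NL

open Real Finset MP798203.AB

/-- splitting a sum over scales at `RJ` and `RM` -/
private theorem split_sum {s : ℕ} (hs : 2 ≤ s) {X0 RJ RM X : ℝ} (hX0 : 0 < X0) (h01 : X0 ≤ RJ)
    (hJM : RJ ≤ RM) (hX : X0 ≤ X) (f : ℕ → ℂ) (hf : ∀ n, ‖f n‖ ≤ 1) {E : ℝ} (hE : 0 ≤ E)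
    (hmid : ∀ Y, RJ ≤ Y → Y ≤ RM → Y ≤ X → ‖∑ n ∈ Ico (cnt s RJ) (cnt s Y), f n‖ ≤ E)
    {k1 k2 : ℝ} (hk1 : RJ / X0 ≤ k1) (hk2 : 1 ≤ k2) (hX2 : X ≤ k2 * RM) :
    ‖∑ n ∈ Ico (cnt s X0) (cnt s X), f n‖ ≤ 2 * Real.log k1 + 1 + E + (2 * Real.log k2 + 1) := by
  set Y1 := min X RJ with hY1
  set Y2 := min X RM with hY2
  have hRJ : 0 < RJ := hX0.trans_le h01
  have hRM : 0 < RM := hRJ.trans_le hJM
  have hXpos : 0 < X := hX0.trans_le hX
  have a1 : X0 ≤ Y1 := le_min hX h01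
  have a2 : Y1 ≤ Y2 := min_le_min_left X hJM
  have a3 : Y2 ≤ X := min_le_left _ _
  have hY1pos : 0 < Y1 := hX0.trans_le a1
  have hY2pos : 0 < Y2 := hY1pos.trans_le a2
  have e1 : ∑ n ∈ Ico (cnt s X0) (cnt s X), f n =
      ∑ n ∈ Ico (cnt s X0) (cnt s Y1), f n + ∑ n ∈ Ico (cnt s Y1) (cnt s Y2), f n +
        ∑ n ∈ Ico (cnt s Y2) (cnt s X), f n := by
    rw [Finset.sum_Ico_consecutive f (cnt_mono hs a1) (cnt_mono hs a2),
      Finset.sum_Ico_consecutive f ((cnt_mono hs a1).trans (cnt_mono hs a2)) (cnt_mono hs a3)]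
  have b1 : ‖∑ n ∈ Ico (cnt s X0) (cnt s Y1), f n‖ ≤ 2 * Real.log k1 + 1 := by
    refine (norm_sum_cnt_le hs hX0 a1 f hf).trans ?_
    have h1 : Y1 / X0 ≤ k1 :=
      (div_le_div_of_nonneg_right (min_le_right X RJ) hX0.le).trans hk1
    have h2 : Real.log (Y1 / X0) ≤ Real.log k1 := Real.log_le_log (div_pos hY1pos hX0) h1
    linarith
  have b2 : ‖∑ n ∈ Ico (cnt s Y1) (cnt s Y2), f n‖ ≤ E := by
    rcases le_total X RJ with h | h
    · have h1 : Y1 = X := min_eq_left h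
      have h2 : Y2 = X := min_eq_left (h.trans hJM)
      rw [h1, h2, Finset.Ico_self, Finset.sum_empty, norm_zero]
      exact hE
    · have h1 : Y1 = RJ := min_eq_right h
      rw [h1]
      exact hmid Y2 (by rw [← h1]; exact a2) (min_le_right _ _) a3
  have b3 : ‖∑ n ∈ Ico (cnt s Y2) (cnt s X), f n‖ ≤ 2 * Real.log k2 + 1 := by
    refine (norm_sum_cnt_le hs hY2pos a3 f hf).trans ?_
    have h1 : X / Y2 ≤ k2 := by
      rw [div_le_iff₀ hY2pos]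
      rcases le_total X RM with h | h
      · have h2 : Y2 = X := min_eq_left h
        rw [h2]
        nlinarith
      · have h2 : Y2 = RM := min_eq_right h
        rw [h2]
        exact hX2
    have h2 : Real.log (X / Y2) ≤ Real.log k2 := Real.log_le_log (div_pos hXpos hY2pos) h1
    linarith
  rw [e1]
  refine (norm_add_le _ _).trans ?_
  have := norm_add_le (∑ n ∈ Ico (cnt s X0) (cnt s Y1), f n)
    (∑ n ∈ Ico (cnt s Y1) (cnt s Y2), f n)
  linarith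

/-- the size of the new scale -/
private theorem exists_B {r : ℕ} (hr : 2 ≤ r) {H : ℕ} (hH : 0 < H) (J : ℕ) {K ρs : ℝ}
    (hK : 0 ≤ K) (hρs : 0 < ρs) : ∃ B : ℕ, K / (r : ℝ) ^ (J + B * H) ≤ ρs := by
  have hr1 : (1 : ℝ) < r := by exact_mod_cast (by omega : 1 < r)
  obtain ⟨B, hB⟩ := pow_unbounded_of_one_lt (K / ρs) hr1
  refine ⟨B, ?_⟩
  have h1 : B * 1 ≤ B * H := Nat.mul_le_mul_left _ hH
  have h2 : (r : ℝ) ^ B ≤ (r : ℝ) ^ (J + B * H) := pow_le_pow_right₀ hr1.le (by omega)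
  rw [div_le_iff₀ (by positivity)]
  rw [div_lt_iff₀ hρs] at hB
  nlinarith

theorem stage_nl {ι : Type*} {r : ℕ} (hr : 2 ≤ r) (f : ℝ → ℝ) {x₀ a : ℝ}
    (hf : HasStrictDerivAt f a x₀) (ha : a ≠ 0) (T : Finset ι) (g : ι → ℝ → ℝ) (b : ι → ℝ)
    (hg : ∀ t ∈ T, HasStrictDerivAt (g t) (b t) x₀) (s : ι → ℕ)
    (hT : ∀ t ∈ T, 2 ≤ s t ∧ Adm r (s t) (b t / a)) {ε : ℝ} (hε : 0 < ε) :
    ∃ C δ : ℝ, 0 ≤ C ∧ 0 < δ ∧ ∀ d : ℕ → ℕ, (∀ j, d j < r) → ∀ (z : ℕ → ℝ) (p ρ : ℝ), 0 < ρ →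
      ρ ≤ 1 → Metric.closedBall p ρ ⊆ Metric.closedBall x₀ δ →
      ∃ x' ∈ Metric.closedBall p ρ, (∀ i, x' ≠ z i) ∧ ∀ ρs : ℝ, 0 < ρs →
        ∃ p' ρ' : ℝ, 0 < ρ' ∧ ρ' ≤ ρs ∧ ρ' ≤ 1 ∧
          Metric.closedBall p' ρ' ⊆ Metric.closedBall p ρ ∧
          Metric.closedBall p' ρ' ⊆ Metric.closedBall x' ρs ∧
          ∀ x ∈ Metric.closedBall p' ρ', ∀ X : ℝ, 1 / ρ ≤ X → X ≤ 1 / ρ' →
            (((Ico (cnt r (1 / ρ)) (cnt r X)).filter
              (fun j => dg r (f x) j ≠ (d j : ℤ))).card : ℝ) ≤ ε * Real.log (X * ρ) + C ∧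
            ∀ t ∈ T, ‖∑ n ∈ Ico (cnt (s t) (1 / ρ)) (cnt (s t) X), ee ((s t : ℝ) ^ n * g t x)‖ ≤
              ε * Real.log (X * ρ) + C := by
  classical
  obtain ⟨H, CH, η, hH, hCH, hη, hiter⟩ := iter_nl hr T (fun t => b t / a) s hT hε
  obtain ⟨h, δ, δ', V, A, hδ, hδ', hV0, hA0, hfh, hhV, hclose, hhf, hfA⟩ :=
    local_coord f hf ha T g b hg hη
  have hr1 : (1 : ℝ) < r := by exact_mod_cast (by omega : 1 < r)
  have hr0 : (0 : ℝ) < r := by linarith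
  set κ := max 1 (4 * V) with hκ
  have hκ1 : 1 ≤ κ := le_max_left _ _
  have hκV : 4 * V ≤ κ := le_max_right _ _
  set κ' := 1 / (4 * (A + 1)) with hκ'
  have hκ'0 : 0 < κ' := by positivity
  have hκ'4 : κ' ≤ 1 / 4 := by
    rw [hκ', div_le_div_iff₀ (by positivity) (by norm_num)]
    linarith
  have hAκ' : A * κ' < 1 / 4 := by
    rw [hκ', mul_one_div, div_lt_div_iff₀ (by positivity) (by norm_num)]
    linarith
  have hκ'inv : 1 ≤ 1 / κ' := by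
    rw [le_div_iff₀ hκ'0]
    linarith
  have hrκ : 1 ≤ (r : ℝ) * κ := by nlinarith
  have hlog1 : 0 ≤ Real.log (r * κ) := Real.log_nonneg hrκ
  have hlog2 : 0 ≤ Real.log (1 / κ') := Real.log_nonneg hκ'inv
  refine ⟨2 * Real.log (r * κ) + 2 * Real.log (1 / κ') + 2 + CH, min δ (δ' / 2), by positivity,
    by positivity, ?_⟩
  intro d hd z p ρ hρ hρ1 hball
  have hρδ : ρ ≤ min δ (δ' / 2) := by
    have h1 : p + ρ ∈ Metric.closedBall x₀ (min δ (δ' / 2)) := hball (by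
      rw [Metric.mem_closedBall, Real.dist_eq, add_sub_cancel_left, abs_of_pos hρ])
    have h2 : p - ρ ∈ Metric.closedBall x₀ (min δ (δ' / 2)) := hball (by
      rw [Metric.mem_closedBall, Real.dist_eq, sub_sub_cancel_left, abs_neg, abs_of_pos hρ])
    rw [Metric.mem_closedBall, Real.dist_eq, abs_le] at h1 h2
    linarith [h1.2, h2.1]
  have hballδ : Metric.closedBall p ρ ⊆ Metric.closedBall x₀ δ :=
    hball.trans (Metric.closedBall_subset_closedBall (min_le_left _ _))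
  have hpδ : p ∈ Metric.closedBall x₀ δ := hballδ (Metric.mem_closedBall_self hρ.le)
  obtain ⟨J, hJ1, hJ2⟩ := exists_scale hr hκ1 hρ hρ1
  have hRJ : (0 : ℝ) < (r : ℝ) ^ J := by positivity
  have hρJ : 1 / ρ ≤ (r : ℝ) ^ J := (div_le_div_of_nonneg_right hκ1 hρ.le).trans hJ1
  have hρJ' : 1 / (r : ℝ) ^ J ≤ ρ := by
    rw [div_le_iff₀ hRJ]
    rw [div_le_iff₀ hρ] at hρJ
    linarith
  have hVJ : V / (r : ℝ) ^ J ≤ ρ / 4 := by
    rw [div_le_iff₀ hRJ]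
    rw [div_le_iff₀ hρ] at hJ1
    nlinarith
  set y0 := f p with hy0
  set m0 : ℤ := ⌊y0 * (r : ℝ) ^ J⌋ with hm0
  have q1 : (m0 : ℝ) / (r : ℝ) ^ J ≤ y0 := by
    rw [div_le_iff₀ hRJ]
    exact Int.floor_le _
  have q2 : y0 ≤ ((m0 : ℝ) + 1) / (r : ℝ) ^ J := by
    rw [le_div_iff₀ hRJ]
    exact (Int.lt_floor_add_one _).le
  have e0 : ((m0 : ℝ) + 1) / (r : ℝ) ^ J = (m0 : ℝ) / (r : ℝ) ^ J + 1 / (r : ℝ) ^ J := by
    rw [add_div]
  have hcy0 : ∀ y ∈ cyl r J m0, |y - y0| ≤ 1 / (r : ℝ) ^ J := by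
    intro y hy
    have h1 := hy.1
    have h2 := hy.2
    rw [abs_le]
    constructor <;> linarith
  have hcyl : cyl r J m0 ⊆ Metric.closedBall (f x₀) δ' := by
    intro y hy
    rw [Metric.mem_closedBall, Real.dist_eq]
    have h1 := hcy0 y hy
    have h2 := (hhf p hpδ).2
    have h3 : 1 / (r : ℝ) ^ J ≤ δ' / 2 := (hρJ'.trans hρδ).trans (min_le_right _ _)
    have h4 := abs_add_le (y - y0) (y0 - f x₀)
    rw [sub_add_sub_cancel] at h4
    linarith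
  obtain ⟨m, y₁, hy₁z, hm⟩ := hiter J m0 d hd (fun t y => g t (h y))
    (fun t ht y hy y' hy' => hclose t ht y (hcyl hy) y' (hcyl hy')) (fun i => f (z i))
  have hy₁c : y₁ ∈ cyl r J m0 := (hm 0).2.1 (hm 0).1
  have hy₁b : y₁ ∈ Metric.closedBall (f x₀) δ' := hcyl hy₁c
  have hhp : h y0 = p := (hhf p hpδ).1
  have hy0b : y0 ∈ Metric.closedBall (f x₀) δ' := by
    rw [Metric.mem_closedBall, Real.dist_eq]
    have := (hhf p hpδ).2
    linarith
  have hdist : ∀ y ∈ cyl r J m0, |h y - p| ≤ ρ / 4 := by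
    intro y hy
    have h1 := hhV y (hcyl hy) y0 hy0b
    rw [hhp] at h1
    calc |h y - p| ≤ V * |y - y0| := h1
      _ ≤ V * (1 / (r : ℝ) ^ J) := mul_le_mul_of_nonneg_left (hcy0 y hy) hV0
      _ = V / (r : ℝ) ^ J := by ring
      _ ≤ ρ / 4 := hVJ
  refine ⟨h y₁, ?_, ?_, ?_⟩
  · rw [Metric.mem_closedBall, Real.dist_eq]
    have := hdist y₁ hy₁c
    linarith
  · intro i hi
    apply hy₁z i
    rw [← hi]
    exact (hfh y₁ hy₁b).symm
  intro ρs hρs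
  obtain ⟨B, hB⟩ := exists_B hr hH J (K := V + 1) (by positivity) (ρs := ρs) hρs
  obtain ⟨g1, g2, g3, g4⟩ := hm B
  set M := J + B * H with hM
  have hRM : (0 : ℝ) < (r : ℝ) ^ M := by positivity
  have hJM : (r : ℝ) ^ J ≤ (r : ℝ) ^ M := pow_le_pow_right₀ hr1.le (by omega)
  set y2 := ((m B : ℝ) + 1 / 2) / (r : ℝ) ^ M with hy2
  have hy2c : y2 ∈ cyl r M (m B) := by
    refine ⟨?_, ?_⟩
    · rw [hy2]
      exact div_le_div_of_nonneg_right (by linarith) hRM.le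
    · rw [hy2]
      exact div_le_div_of_nonneg_right (by linarith) hRM.le
  have hy2J : y2 ∈ cyl r J m0 := g2 hy2c
  have hy2b : y2 ∈ Metric.closedBall (f x₀) δ' := hcyl hy2J
  set p' := h y2 with hp'
  set ρ' := κ' / (r : ℝ) ^ M with hρ'
  have hfp' : f p' = y2 := hfh y2 hy2b
  have hρ'0 : 0 < ρ' := div_pos hκ'0 hRM
  have hRM1 : (1 : ℝ) ≤ (r : ℝ) ^ M := one_le_pow₀ hr1.le
  have hρ'1 : ρ' ≤ 1 := by
    rw [hρ', div_le_iff₀ hRM]
    linarith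
  have hρ'4 : ρ' ≤ ρ / 4 := by
    calc ρ' ≤ κ' / (r : ℝ) ^ J := div_le_div_of_nonneg_left hκ'0.le hRJ hJM
      _ ≤ (1 / 4) / (r : ℝ) ^ J := div_le_div_of_nonneg_right hκ'4 hRJ.le
      _ = 1 / 4 * (1 / (r : ℝ) ^ J) := by ring
      _ ≤ 1 / 4 * ρ := mul_le_mul_of_nonneg_left hρJ' (by norm_num)
      _ = ρ / 4 := by ring
  have hsub : Metric.closedBall p' ρ' ⊆ Metric.closedBall p ρ := by
    refine Metric.closedBall_subset_closedBall' ?_
    rw [Real.dist_eq]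
    have := hdist y2 hy2J
    linarith
  have hVM : V / (r : ℝ) ^ M + ρ' ≤ ρs := by
    refine le_trans ?_ hB
    rw [hρ', ← add_div]
    exact div_le_div_of_nonneg_right (by linarith) hRM.le
  have hsub2 : Metric.closedBall p' ρ' ⊆ Metric.closedBall (h y₁) ρs := by
    refine Metric.closedBall_subset_closedBall' ?_
    rw [Real.dist_eq]
    have h1 := hhV y2 hy2b y₁ hy₁b
    have h2 : |y2 - y₁| ≤ 1 / (r : ℝ) ^ M := by
      have a1 := hy2c.1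
      have a2 := hy2c.2
      have a3 := g1.1
      have a4 := g1.2
      rw [add_div] at a2 a4
      rw [abs_le]
      constructor <;> linarith
    have h3 : |p' - h y₁| ≤ V / (r : ℝ) ^ M := by
      calc |p' - h y₁| ≤ V * |y2 - y₁| := h1
        _ ≤ V * (1 / (r : ℝ) ^ M) := mul_le_mul_of_nonneg_left h2 hV0
        _ = V / (r : ℝ) ^ M := by ring
    linarith
  have hρ's : ρ' ≤ ρs := by
    have : 0 ≤ V / (r : ℝ) ^ M := by positivity
    linarith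
  refine ⟨p', ρ', hρ'0, hρ's, hρ'1, hsub, hsub2, ?_⟩
  intro x hx X hX1 hX2
  -- the position of `f x`
  have hxδ : x ∈ Metric.closedBall x₀ δ := hballδ (hsub hx)
  have hp'δ : p' ∈ Metric.closedBall x₀ δ := hballδ (hsub (Metric.mem_closedBall_self hρ'0.le))
  have hx' : |x - p'| ≤ ρ' := by
    rw [← Real.dist_eq]
    exact Metric.mem_closedBall.1 hx
  have h1 : |f x - y2| < 1 / 4 / (r : ℝ) ^ M := by
    have h2 := hfA x hxδ p' hp'δ
    rw [hfp'] at h2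
    calc |f x - y2| ≤ A * |x - p'| := h2
      _ ≤ A * ρ' := mul_le_mul_of_nonneg_left hx' hA0
      _ = A * κ' / (r : ℝ) ^ M := by rw [hρ']; ring
      _ < 1 / 4 / (r : ℝ) ^ M := div_lt_div_of_pos_right hAκ' hRM
  rw [abs_lt] at h1
  have e1 : y2 = (m B : ℝ) / (r : ℝ) ^ M + 1 / 2 / (r : ℝ) ^ M := by rw [hy2, add_div]
  have e2 : ((m B : ℝ) + 1) / (r : ℝ) ^ M = (m B : ℝ) / (r : ℝ) ^ M + 1 / (r : ℝ) ^ M := by
    rw [add_div]
  have e3 : 1 / 2 / (r : ℝ) ^ M = 1 / 2 * (1 / (r : ℝ) ^ M) := by ring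
  have e4 : 1 / 4 / (r : ℝ) ^ M = 1 / 4 * (1 / (r : ℝ) ^ M) := by ring
  have e5 : 0 < 1 / (r : ℝ) ^ M := by positivity
  have h3 : (m B : ℝ) / (r : ℝ) ^ M ≤ f x := by
    rw [e1, e3, e4] at h1
    linarith [h1.1]
  have h4 : f x < ((m B : ℝ) + 1) / (r : ℝ) ^ M := by
    rw [e1, e3, e4] at h1
    rw [e2]
    linarith [h1.2]
  have hfxc : f x ∈ cyl r M (m B) := ⟨h3, h4.le⟩
  have hhx : h (f x) = x := (hhf x hxδ).1
  -- the scales
  have hρinv : 0 < 1 / ρ := by positivity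
  have hX0 : 0 < X := hρinv.trans_le hX1
  have hXρ : 1 ≤ X * ρ := by
    rw [div_le_iff₀ hρ] at hX1
    exact hX1
  have hlogX : 0 ≤ Real.log (X * ρ) := Real.log_nonneg hXρ
  have hXM : X ≤ 1 / κ' * (r : ℝ) ^ M := by
    refine hX2.trans (le_of_eq ?_)
    rw [hρ']
    field_simp
  have hJρ : (r : ℝ) ^ J / (1 / ρ) ≤ r * κ := by
    rw [div_div_eq_mul_div, div_one]
    rw [lt_div_iff₀ hρ] at hJ2
    exact hJ2.le
  have hE0 : 0 ≤ ε * Real.log (X * ρ) + CH := by positivity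
  have hlogY : ∀ Y, (r : ℝ) ^ J ≤ Y → Y ≤ X →
      ε * Real.log (Y / (r : ℝ) ^ J) + CH ≤ ε * Real.log (X * ρ) + CH := by
    intro Y hY1 hY3
    have hY0 : 0 < Y := hRJ.trans_le hY1
    have h5 : Real.log (Y / (r : ℝ) ^ J) ≤ Real.log (X * ρ) := by
      refine Real.log_le_log (div_pos hY0 hRJ) ?_
      calc Y / (r : ℝ) ^ J = Y * (1 / (r : ℝ) ^ J) := by ring
        _ ≤ X * ρ := mul_le_mul hY3 hρJ' (by positivity) hX0.le
    have := mul_le_mul_of_nonneg_left h5 hε.le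
    linarith
  constructor
  · have hfin := split_sum hr hρinv hρJ hJM hX1
      (fun j => if dg r (f x) j ≠ (d j : ℤ) then (1 : ℂ) else 0)
      (fun j => by split_ifs <;> simp) (E := ε * Real.log (X * ρ) + CH) hE0 (by
        intro Y hY1 hY2 hY3
        have h5 := g3 (f x) h3 h4 Y hY1 hY2
        rw [Finset.sum_boole, Complex.norm_natCast]
        exact h5.trans (hlogY Y hY1 hY3)) hJρ hκ'inv hXM
    rw [Finset.sum_boole, Complex.norm_natCast] at hfin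
    refine hfin.trans ?_
    linarith
  · intro t ht
    have hs := (hT t ht).1
    have hfin := split_sum hs hρinv hρJ hJM hX1
      (fun n => ee ((s t : ℝ) ^ n * g t x)) (fun n => (norm_ee _).le)
      (E := ε * Real.log (X * ρ) + CH) hE0 (by
        intro Y hY1 hY2 hY3
        have h5 := g4 t ht (f x) hfxc Y hY1 hY2
        simp only [hhx] at h5
        exact h5.trans (hlogY Y hY1 hY3)) hJρ hκ'inv hXM
    refine hfin.trans ?_
    linarith

end MP798203.NL
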