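import Pool.Agent.Lib.MP_798203_nt.AB.StepA

/-!
One block for nonlinear functions `G t`, close to the linear functions with slopes `β t` on the closed cylinder
`[m / r^J, (m+1) / r^J]`, and the new closed cylinder avoids a given point `z`.
-/

namespace MP798203.NL

open Real Finset MP798203.AB

/-- the closed cylinder number `m` of level `J` -/
def cyl (r J : ℕ) (m : ℤ) : Set ℝ := Set.Icc ((m : ℝ) / (r : ℝ) ^ J) (((m : ℝ) + 1) / (r : ℝ) ^ J)

theorem cyl_subset {r J H : ℕ} (hr : 2 ≤ r) {m m' : ℤ} (h1 : m * (r : ℤ) ^ H ≤ m')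
    (h2 : m' < (m + 1) * (r : ℤ) ^ H) : cyl r (J + H) m' ⊆ cyl r J m := by
  have hr0 : (0 : ℝ) < r := by exact_mod_cast (by omega : 0 < r)
  have hJ : (0 : ℝ) < (r : ℝ) ^ J := by positivity
  have hH : (0 : ℝ) < (r : ℝ) ^ H := by positivity
  have h1' : (m : ℝ) * (r : ℝ) ^ H ≤ m' := by exact_mod_cast h1
  have h2' : (m' : ℝ) + 1 ≤ ((m : ℝ) + 1) * (r : ℝ) ^ H := by
    have : m' + 1 ≤ (m + 1) * (r : ℤ) ^ H := h2
    exact_mod_cast this
  intro y hy
  unfold cyl at hy ⊢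
  rw [Set.mem_Icc] at hy ⊢
  constructor
  · refine le_trans ?_ hy.1
    rw [pow_add, div_le_div_iff₀ hJ (by positivity)]
    calc (m : ℝ) * ((r : ℝ) ^ J * (r : ℝ) ^ H) = (m : ℝ) * (r : ℝ) ^ H * (r : ℝ) ^ J := by ring
      _ ≤ m' * (r : ℝ) ^ J := by gcongr
  · refine le_trans hy.2 ?_
    rw [pow_add, div_le_div_iff₀ (by positivity) hJ]
    calc ((m' : ℝ) + 1) * (r : ℝ) ^ J ≤ (((m : ℝ) + 1) * (r : ℝ) ^ H) * (r : ℝ) ^ J := by gcongr
      _ = ((m : ℝ) + 1) * ((r : ℝ) ^ J * (r : ℝ) ^ H) := by ring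

/-- two more digits to avoid the point `z` -/
theorem avoid {r : ℕ} (hr : 2 ≤ r) (J : ℕ) (m : ℤ) (z : ℝ) :
    ∃ m' : ℤ, m * (r : ℤ) ^ 2 ≤ m' ∧ m' < (m + 1) * (r : ℤ) ^ 2 ∧ z ∉ cyl r (J + 2) m' := by
  have hr0 : (0 : ℝ) < r := by exact_mod_cast (by omega : 0 < r)
  have hrz : (2 : ℤ) ≤ r := by exact_mod_cast hr
  have hrr : (2 : ℝ) ≤ r := by exact_mod_cast hr
  have hr2 : (4 : ℤ) ≤ (r : ℤ) ^ 2 := by nlinarith
  have hr2' : (4 : ℝ) ≤ (r : ℝ) ^ 2 := by nlinarith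
  have hJ : (0 : ℝ) < (r : ℝ) ^ (J + 2) := by positivity
  by_cases hz : z ∈ cyl r (J + 2) (m * (r : ℤ) ^ 2)
  · refine ⟨m * (r : ℤ) ^ 2 + ((r : ℤ) ^ 2 - 1), by linarith, by linarith, ?_⟩
    intro hz2
    unfold cyl at hz hz2
    rw [Set.mem_Icc] at hz hz2
    have h1 := hz.2
    have h2 := hz2.1
    rw [le_div_iff₀ hJ] at h1
    rw [div_le_iff₀ hJ] at h2
    push_cast at h1 h2
    linarith
  · exact ⟨m * (r : ℤ) ^ 2, le_rfl, by linarith, hz⟩

theorem step_nl {ι : Type*} {q r : ℕ} (hq : 2 ≤ q) (hr : 2 ≤ r) (T : Finset ι) (β : ι → ℝ)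
    (s : ι → ℕ) (hT : ∀ t ∈ T, 2 ≤ s t ∧ Adm r (s t) (β t)) {τ : ℝ} (hτ : 0 < τ) (H0 : ℕ) :
    ∃ (H : ℕ) (η : ℝ), H0 ≤ H ∧ 0 < H ∧ 0 < η ∧ ∀ (J : ℕ) (m : ℤ) (d : ℕ → ℕ), (∀ j, d j < r) →
      ∀ G : ι → ℝ → ℝ, (∀ t ∈ T, ∀ y ∈ cyl r J m, ∀ y' ∈ cyl r J m,
        |G t y - G t y' - β t * (y - y')| ≤ η * |y - y'|) → ∀ z : ℝ,
      ∃ m' : ℤ, m * (r : ℤ) ^ H ≤ m' ∧ m' < (m + 1) * (r : ℤ) ^ H ∧
        (((range H).filter (fun i => di r (J + H) m' (J + i) ≠ (d (J + i) : ℤ))).card : ℝ) ≤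
          2 * H / q + 2 ∧ z ∉ cyl r (J + H) m' ∧
        ∀ t ∈ T, ∀ y ∈ cyl r (J + H) m',
          ‖∑ n ∈ Ico (cnt (s t) ((r : ℝ) ^ J)) (cnt (s t) ((r : ℝ) ^ (J + H))),
            ee ((s t : ℝ) ^ n * G t y)‖ ≤ τ * H := by
  classical
  obtain ⟨H1, hH1⟩ := step hq hr T β s hT (τ := τ / 3) (by positivity)
  have hr1 : (1 : ℝ) < r := by exact_mod_cast (by omega : 1 < r)
  have hr0 : (0 : ℝ) < r := by linarith
  have hlr : 0 < Real.log r := Real.log_pos hr1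
  set c : ℝ := 4 * Real.log r + 1 with hc
  have hc0 : 0 < c := by positivity
  -- the length of the main part
  obtain ⟨L, hL⟩ : ∃ L : ℕ, L = max (max H1 H0) (⌈3 * c / τ⌉₊ + 1) := ⟨_, rfl⟩
  have hLH1 : H1 ≤ L := by rw [hL]; exact le_trans (le_max_left _ _) (le_max_left _ _)
  have hLH0 : H0 ≤ L := by rw [hL]; exact le_trans (le_max_right _ _) (le_max_left _ _)
  have hLc : ⌈3 * c / τ⌉₊ + 1 ≤ L := by rw [hL]; exact le_max_right _ _
  have hL1 : 1 ≤ L := by omega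
  have hLr : (1 : ℝ) ≤ L := by exact_mod_cast hL1
  have hLc' : 3 * c ≤ τ * L := by
    have h1 : 3 * c / τ ≤ L := (Nat.le_ceil _).trans (by exact_mod_cast (by omega))
    rw [div_le_iff₀ hτ] at h1
    linarith
  obtain ⟨η, hη⟩ : ∃ η : ℝ, η = τ / (6 * π * (r : ℝ) ^ L * c) := ⟨_, rfl⟩
  have hη0 : 0 < η := by rw [hη]; positivity
  refine ⟨L + 2, η, by omega, by omega, hη0, ?_⟩
  intro J m d hd G hG z
  set yJ : ℝ := (m : ℝ) / (r : ℝ) ^ J with hyJ
  have hRJ : (0 : ℝ) < (r : ℝ) ^ J := by positivity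
  have hyJm : yJ ∈ cyl r J m := by
    unfold cyl
    rw [Set.mem_Icc]
    refine ⟨le_rfl, ?_⟩
    rw [hyJ, div_le_div_iff_of_pos_right hRJ]
    linarith
  obtain ⟨m1, k1, k2, k3, k4⟩ := hH1 L hLH1 J m d hd
    (fun t n => ee ((s t : ℝ) ^ n * (G t yJ - β t * yJ))) (fun t n => (norm_ee _).le)
  obtain ⟨m', l1, l2, l3⟩ := avoid hr (J + L) m1 z
  have hsub : cyl r (J + L + 2) m' ⊆ cyl r (J + L) m1 := cyl_subset hr l1 l2
  have hsub0 : cyl r (J + L) m1 ⊆ cyl r J m := cyl_subset hr k1 k2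
  have hrz : (0 : ℤ) < r := by exact_mod_cast (by omega : 0 < r)
  refine ⟨m', ?_, ?_, ?_, by rwa [← add_assoc], ?_⟩
  · rw [pow_add, ← mul_assoc]
    exact (mul_le_mul_of_nonneg_right k1 (by positivity)).trans l1
  · rw [pow_add, ← mul_assoc]
    refine lt_of_lt_of_le l2 ?_
    exact mul_le_mul_of_nonneg_right (by omega) (by positivity)
  · have h1 : (range (L + 2)).filter
        (fun i => di r (J + (L + 2)) m' (J + i) ≠ (d (J + i) : ℤ)) ⊆
        ((range L).filter (fun i => di r (J + L) m1 (J + i) ≠ (d (J + i) : ℤ))) ∪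
          {L, L + 1} := by
      intro i hi
      rw [mem_filter, mem_range] at hi
      rw [mem_union, mem_filter, mem_range, mem_insert, mem_singleton]
      rcases Nat.lt_or_ge i L with h | h
      · left
        refine ⟨h, ?_⟩
        have h2 := hi.2
        rw [← add_assoc] at h2
        rw [di_nest hr l1 l2 (by omega)] at h2
        exact h2
      · right
        omega
    have h2 := (Finset.card_le_card h1).trans (Finset.card_union_le _ _)
    have h3 : (({L, L + 1} : Finset ℕ)).card ≤ 2 := Finset.card_le_two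
    have h4 : (((range (L + 2)).filter
        (fun i => di r (J + (L + 2)) m' (J + i) ≠ (d (J + i) : ℤ))).card : ℝ) ≤
        (((range L).filter (fun i => di r (J + L) m1 (J + i) ≠ (d (J + i) : ℤ))).card : ℝ) + 2 := by
      exact_mod_cast h2.trans (Nat.add_le_add_left h3 _)
    refine h4.trans ?_
    have hq0 : (0 : ℝ) < q := by exact_mod_cast (by omega : 0 < q)
    have h5 : 2 * (L : ℝ) / q ≤ 2 * ((L + 2 : ℕ) : ℝ) / q := by
      push_cast
      exact div_le_div_of_nonneg_right (by linarith) hq0.le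
    linarith
  · intro t ht y hy
    rw [← add_assoc] at hy
    have hs2 := (hT t ht).1
    have hy1 : y ∈ cyl r (J + L) m1 := hsub hy
    have hy0 : y ∈ cyl r J m := hsub0 hy1
    set I := Ico (cnt (s t) ((r : ℝ) ^ J)) (cnt (s t) ((r : ℝ) ^ (J + L))) with hI
    have c1 : cnt (s t) ((r : ℝ) ^ J) ≤ cnt (s t) ((r : ℝ) ^ (J + L)) :=
      cnt_mono hs2 (pow_le_pow_right₀ hr1.le (by omega))
    have c2 : cnt (s t) ((r : ℝ) ^ (J + L)) ≤ cnt (s t) ((r : ℝ) ^ (J + L + 2)) :=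
      cnt_mono hs2 (pow_le_pow_right₀ hr1.le (by omega))
    -- the linear sum
    have hlin := k4 t ht y hy1.1 hy1.2
    -- the number of terms
    have hcard : ((I.card : ℕ) : ℝ) ≤ c * L := by
      have h1 := cnt_diff hs2 (X := (r : ℝ) ^ J) (Y := (r : ℝ) ^ (J + L)) (by positivity)
        (pow_le_pow_right₀ hr1.le (by omega))
      have h2 : (r : ℝ) ^ (J + L) / (r : ℝ) ^ J = (r : ℝ) ^ L := by
        rw [pow_add]
        field_simp
      rw [h2, Real.log_pow] at h1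
      rw [hI, Nat.card_Ico, Nat.cast_sub c1, hc]
      nlinarith
    -- the comparison of one term
    have hterm : ∀ n ∈ I, ‖ee ((s t : ℝ) ^ n * G t y) -
        ee ((s t : ℝ) ^ n * (G t yJ - β t * yJ)) * ee (β t * (s t : ℝ) ^ n * y)‖ ≤
        2 * π * ((r : ℝ) ^ L * η) := by
      intro n hn
      rw [← ee_add]
      refine (norm_ee_sub_le _ _).trans ?_
      apply mul_le_mul_of_nonneg_left _ (by positivity)
      have e1 : (s t : ℝ) ^ n * G t y - ((s t : ℝ) ^ n * (G t yJ - β t * yJ) +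
          β t * (s t : ℝ) ^ n * y) = (s t : ℝ) ^ n * (G t y - G t yJ - β t * (y - yJ)) := by ring
      rw [e1, abs_mul, abs_of_nonneg (by positivity : (0 : ℝ) ≤ (s t : ℝ) ^ n)]
      have e2 := hG t ht y hy0 yJ hyJm
      have e3 : |y - yJ| ≤ 1 / (r : ℝ) ^ J := by
        have h1 := hy0.1
        have h2 := hy0.2
        rw [add_div] at h2
        rw [abs_of_nonneg (by linarith)]
        linarith
      have e4 : (s t : ℝ) ^ n ≤ (r : ℝ) ^ (J + L) := by
        rw [hI, mem_Ico] at hn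
        exact ((lt_cnt_iff hs2 _ _).1 hn.2).le
      calc (s t : ℝ) ^ n * |G t y - G t yJ - β t * (y - yJ)|
          ≤ (r : ℝ) ^ (J + L) * (η * (1 / (r : ℝ) ^ J)) := by
            apply mul_le_mul e4 _ (abs_nonneg _) (by positivity)
            exact e2.trans (mul_le_mul_of_nonneg_left e3 hη0.le)
        _ = (r : ℝ) ^ L * η := by
            rw [pow_add]
            field_simp
    have hdiff : ‖∑ n ∈ I, ee ((s t : ℝ) ^ n * G t y) -
        ∑ n ∈ I, ee ((s t : ℝ) ^ n * (G t yJ - β t * yJ)) * ee (β t * (s t : ℝ) ^ n * y)‖ ≤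
        τ / 3 * L := by
      rw [← Finset.sum_sub_distrib]
      refine (norm_sum_le _ _).trans ?_
      refine (Finset.sum_le_sum hterm).trans ?_
      rw [Finset.sum_const, nsmul_eq_mul]
      calc (I.card : ℝ) * (2 * π * ((r : ℝ) ^ L * η)) ≤ c * L * (2 * π * ((r : ℝ) ^ L * η)) :=
            mul_le_mul_of_nonneg_right hcard (by positivity)
        _ = τ / 3 * L := by
            rw [hη]
            field_simp
            ring
    have hmain : ‖∑ n ∈ I, ee ((s t : ℝ) ^ n * G t y)‖ ≤ τ / 3 * L + τ / 3 * L := by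
      have h1 := norm_sub_norm_le (∑ n ∈ I, ee ((s t : ℝ) ^ n * G t y))
        (∑ n ∈ I, ee ((s t : ℝ) ^ n * (G t yJ - β t * yJ)) * ee (β t * (s t : ℝ) ^ n * y))
      linarith
    have hrest : ‖∑ n ∈ Ico (cnt (s t) ((r : ℝ) ^ (J + L))) (cnt (s t) ((r : ℝ) ^ (J + L + 2))),
        ee ((s t : ℝ) ^ n * G t y)‖ ≤ c := by
      have h1 := norm_sum_cnt_le hs2 (X := (r : ℝ) ^ (J + L)) (Y := (r : ℝ) ^ (J + L + 2))
        (by positivity) (pow_le_pow_right₀ hr1.le (by omega))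
        (fun n => ee ((s t : ℝ) ^ n * G t y)) (fun n => (norm_ee _).le)
      have h2 : (r : ℝ) ^ (J + L + 2) / (r : ℝ) ^ (J + L) = (r : ℝ) ^ 2 := by
        rw [pow_add _ (J + L) 2]
        field_simp
      rw [h2, Real.log_pow] at h1
      refine h1.trans (le_of_eq ?_)
      rw [hc]
      push_cast
      ring
    rw [← add_assoc, ← Finset.sum_Ico_consecutive _ c1 c2]
    refine (norm_add_le _ _).trans ?_
    push_cast
    linarith

end MP798203.NL
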